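import Pool.Agent.Helper2.RG.St

/-! Basic lemmas and instances for project RG. -/

open scoped Pointwise NumberField
open NumberField Pool.RG

namespace Pool.RG

instance instAlg : Algebra.IsAlgebraic ℚ Qb := by
  have h : @Algebra.IsAlgebraic ℚ (AlgebraicClosure ℚ) _ _ (AlgebraicClosure.instAlgebra ℚ) :=
    AlgebraicClosure.isAlgebraic ℚ
  have e : (AlgebraicClosure.instAlgebra ℚ : Algebra ℚ (AlgebraicClosure ℚ)) = DivisionRing.toRatAlgebra :=
    Subsingleton.elim _ _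
  rw [e] at h
  exact h

instance instAlgClosure : IsAlgClosure ℚ Qb := ⟨inferInstance, inferInstance⟩

instance instGal : IsGalois ℚ Qb := IsAlgClosure.isGalois ℚ Qb

theorem coe_smul' (g : GQ) (x : 𝓞 Qb) : ((g • x : 𝓞 Qb) : Qb) = g (x : Qb) := rfl

theorem mem_Ine (g : GQ) (P : Ideal (𝓞 Qb)) : g ∈ Ine P ↔ ∀ x : 𝓞 Qb, g • x - x ∈ P := Iff.rfl

theorem mem_Dec (g : GQ) (P : Ideal (𝓞 Qb)) : g ∈ Dec P ↔ g • P = P := Iff.rfl

theorem mem_GF (F : IntermediateField ℚ Qb) (g : GQ) : g ∈ GF F ↔ ∀ x ∈ F, g x = x :=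
  IntermediateField.mem_fixingSubgroup_iff F g

theorem mem_smul (g : GQ) (P : Ideal (𝓞 Qb)) (x : 𝓞 Qb) : x ∈ g • P ↔ g⁻¹ • x ∈ P :=
  Ideal.mem_pointwise_smul_iff_inv_smul_mem

theorem isMaximal_smul (g : GQ) (P : Ideal (𝓞 Qb)) (hP : P.IsMaximal) : (g • P).IsMaximal := by
  have : (g • P) = P.map (MulSemiringAction.toRingEquiv GQ (𝓞 Qb) g : (𝓞 Qb) →+* (𝓞 Qb)) := rfl
  rw [this]
  exact Ideal.map_isMaximal_of_equiv (p := P) (MulSemiringAction.toRingEquiv GQ (𝓞 Qb) g)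

instance instCompact : CompactSpace GQ := inferInstance

theorem stable (F L : IntermediateField ℚ Qb) (hn : ∀ g ∈ GF F, ∀ n ∈ GF L, g * n * g⁻¹ ∈ GF L)
    (g : GQ) (hg : g ∈ GF F) (x : Qb) (hx : x ∈ L) : g x ∈ L := by
  have h1 : IntermediateField.fixedField (GF L) = L := InfiniteGalois.fixedField_fixingSubgroup L
  rw [← h1, IntermediateField.mem_fixedField_iff]
  intro f hf
  have h2 := hn g⁻¹ (inv_mem hg) f hf
  rw [inv_inv] at h2
  have h3 := (mem_GF L _).1 h2 x hx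
  have h4 : g ((g⁻¹ * f * g) x) = g x := by rw [h3]
  have h5 : g ((g⁻¹ * f * g) x) = f (g x) := by
    change (g * (g⁻¹ * f * g)) x = f (g x)
    rw [show g * (g⁻¹ * f * g) = f * g by group]
    rfl
  rw [← h5, h4]

end Pool.RG
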