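import Mathlib

/-!
# MP_76188c_nt, project RG (helper2): one decomposition group is everything

`Qb` = an algebraic closure of `ℚ`, `Gal(Qb/ℚ)` with the Krull topology, `𝓞 Qb` = the ring of all algebraic integers.
For a maximal ideal `P` of `𝓞 Qb`: `Dec P` = decomposition group, `Ine P` = inertia group (subgroups of `Gal(Qb/ℚ)`).
-/

open scoped Pointwise NumberField
open NumberField

namespace Pool.RG

/-- An algebraic closure of `ℚ`. -/
abbrev Qb : Type := AlgebraicClosure ℚ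

/-- The absolute Galois group of `ℚ` (with the Krull topology). -/
abbrev GQ : Type := Gal(Qb/ℚ)

/-- The decomposition group of an ideal `P` of the ring of algebraic integers. -/
noncomputable def Dec (P : Ideal (𝓞 Qb)) : Subgroup GQ := MulAction.stabilizer GQ P

/-- The inertia group of an ideal `P` of the ring of algebraic integers. -/
noncomputable def Ine (P : Ideal (𝓞 Qb)) : Subgroup GQ := P.inertia GQ

/-- The absolute Galois group of a subfield `F` of `Qb`, as a subgroup of `Gal(Qb/ℚ)`. -/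
noncomputable abbrev GF (F : IntermediateField ℚ Qb) : Subgroup GQ := F.fixingSubgroup

/-- `P` does not lie above `l` or a member of `S`. -/
def Out (l : ℕ) (S : Finset ℕ) (P : Ideal (𝓞 Qb)) : Prop :=
  P.IsMaximal ∧ (l : 𝓞 Qb) ∉ P ∧ ∀ p ∈ S, (p : 𝓞 Qb) ∉ P

/-- There is no cyclic extension of `F` of degree `l`, unramified outside `S ∪ {l, ∞}`, in which the place of `F` below
`P0` splits completely. (`N` is the absolute Galois group of the extension.) -/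
def Good (l : ℕ) (S : Finset ℕ) (F : IntermediateField ℚ Qb) (P0 : Ideal (𝓞 Qb)) : Prop :=
  ∀ N : Subgroup GQ, N ≤ GF F → (∀ g ∈ GF F, ∀ n ∈ N, g * n * g⁻¹ ∈ N) → IsOpen (N : Set GQ) →
    N.relIndex (GF F) = l → (∀ P, Out l S P → GF F ⊓ Ine P ≤ N) → ¬ (GF F ⊓ Dec P0 ≤ N)

/-- The decomposition group of `P0` in `Gal(Qb/F0)` surjects onto `Gal(F/F0)`. -/
noncomputable def DecSurj (F0 F : IntermediateField ℚ Qb) (P0 : Ideal (𝓞 Qb)) : Prop :=
  ∀ g ∈ GF F0, ∃ d ∈ GF F0 ⊓ Dec P0, d⁻¹ * g ∈ GF F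

/-- `k` is contained in a finite Galois extension `M` of `F` of degree a power of `l`, unramified outside `S ∪ {l, ∞}`. -/
def Tower (l : ℕ) (S : Finset ℕ) (F k : IntermediateField ℚ Qb) : Prop :=
  ∃ M : IntermediateField ℚ Qb, FiniteDimensional ℚ M ∧ F ≤ M ∧ k ≤ M ∧
    (∀ g ∈ GF F, ∀ n ∈ GF M, g * n * g⁻¹ ∈ GF M) ∧ (∃ r : ℕ, (GF M).relIndex (GF F) = l ^ r) ∧
    (∀ P, Out l S P → GF F ⊓ Ine P ≤ GF M)

/-- The matrix over `ℚ_l` of an element of `GL_n(ℤ_l)`. -/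
noncomputable def matQ (l : ℕ) [Fact l.Prime] {n : ℕ} (g : GL (Fin n) ℤ_[l]) : Matrix (Fin n) (Fin n) ℚ_[l] :=
  (g : Matrix (Fin n) (Fin n) ℤ_[l]).map (fun x : ℤ_[l] => (x : ℚ_[l]))

/-- A continuous representation `ρ` of `Gal(Qb/k)` on `ℤ_l^n`, unramified outside `S ∪ {l}`, such that `Gal(Qb/F)` acts
modulo `l` through elements of `l`-power order. -/
def RepOK (l : ℕ) [Fact l.Prime] (S : Finset ℕ) (F k : IntermediateField ℚ Qb) (n : ℕ)
    (ρ : GF k →* GL (Fin n) ℤ_[l]) : Prop :=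
  Continuous ρ ∧ (∀ P, Out l S P → ∀ σ : GF k, σ.1 ∈ Ine P → ρ σ = 1) ∧
    ∀ σ : GF k, σ.1 ∈ GF F → ∃ r : ℕ,
      (Matrix.GeneralLinearGroup.map (PadicInt.toZMod (p := l)) (ρ σ)) ^ (l ^ r) = 1

/-- The conclusion in degree one: every continuous 1-cocycle of `Gal(Qb/k)` with values in `ℚ_l^n`, unramified outside
`S ∪ {l}`, whose restriction to the decomposition group at `P0` is a coboundary, is a coboundary. -/
def ConclH1 (l : ℕ) [Fact l.Prime] (S : Finset ℕ) (k : IntermediateField ℚ Qb) (P0 : Ideal (𝓞 Qb)) (n : ℕ)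
    (ρ : GF k →* GL (Fin n) ℤ_[l]) : Prop :=
  ∀ c : GF k → (Fin n → ℚ_[l]), Continuous c → (∀ σ τ, c (σ * τ) = c σ + (matQ l (ρ σ)).mulVec (c τ)) →
    (∀ P, Out l S P → ∀ σ : GF k, σ.1 ∈ Ine P → c σ = 0) →
    (∃ v : Fin n → ℚ_[l], ∀ σ : GF k, σ.1 ∈ Dec P0 → c σ = (matQ l (ρ σ)).mulVec v - v) →
    ∃ v : Fin n → ℚ_[l], ∀ σ : GF k, c σ = (matQ l (ρ σ)).mulVec v - v

/-- The conclusion for the image: the decomposition group at `P0` has the same image as `Gal(Qb/k)`. -/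
def ConclIm (l : ℕ) [Fact l.Prime] (k : IntermediateField ℚ Qb) (P0 : Ideal (𝓞 Qb)) (n : ℕ)
    (ρ : GF k →* GL (Fin n) ℤ_[l]) : Prop :=
  ∀ σ : GF k, ∃ τ : GF k, τ.1 ∈ Dec P0 ∧ ρ τ = ρ σ

/-- Case A. `F` has exactly one prime above `l`, class number prime to `l`, is totally complex if `l = 2`; the residue
fields at the primes of `F` above `S` have order `≡ 1 mod l`, and the units of `F` surject onto the product of their
unit groups modulo `l`-th powers. -/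
def CaseA (l : ℕ) (S : Finset ℕ) (F : IntermediateField ℚ Qb) [NumberField F] : Prop :=
  (∃! p : Ideal (𝓞 F), p.IsMaximal ∧ (l : 𝓞 F) ∈ p) ∧ Nat.Coprime (classNumber F) l ∧
  (l ≠ 2 ∨ ∀ w : InfinitePlace F, w.IsComplex) ∧
  (∀ q : Ideal (𝓞 F), q.IsMaximal → (∃ p ∈ S, (p : 𝓞 F) ∈ q) → l ∣ Nat.card (𝓞 F ⧸ q) - 1) ∧
  (∀ x : (q : Ideal (𝓞 F)) → (𝓞 F ⧸ q)ˣ, ∃ u : (𝓞 F)ˣ, ∀ q : Ideal (𝓞 F), q.IsMaximal →
    (∃ p ∈ S, (p : 𝓞 F) ∈ q) → ∃ y : (𝓞 F ⧸ q)ˣ, Units.map (Ideal.Quotient.mk q).toMonoidHom u = x q * y ^ l)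

/-- Case B. `l = 2`, `F = ℚ`, and `S` is empty or consists of one prime `≡ ±3 mod 8`. -/
def CaseB (l : ℕ) (S : Finset ℕ) (F : IntermediateField ℚ Qb) : Prop :=
  l = 2 ∧ F = ⊥ ∧ (S = ∅ ∨ ∃ p : ℕ, p.Prime ∧ (p % 8 = 3 ∨ p % 8 = 5) ∧ S = {p})

end Pool.RG
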