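import Mathlib

/-!
# Definitions for MP_76188c_nt.DecompositionGroup

`Qb` = an algebraic closure of `ℚ`, `GQ` = its Galois group with the Krull topology, `Zb` = the ring of all algebraic
integers.  For a maximal ideal `P` of `Zb`: `Dec P` = decomposition group, `Ine P` = inertia group (subgroups of `GQ`).
-/

open scoped Pointwise NumberField
open NumberField

namespace Pool.RG2

/-- An algebraic closure of `ℚ`. -/
abbrev Qb : Type := AlgebraicClosure ℚ

/-- The absolute Galois group of `ℚ` (with the Krull topology). -/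
abbrev GQ : Type := Gal(Qb/ℚ)

/-- The ring of algebraic integers. -/
abbrev Zb : Type := 𝓞 Qb

/-- Number fields: subfields of `Qb`. -/
abbrev Sub : Type := IntermediateField ℚ Qb

/-- The decomposition group of an ideal `P` of the ring of algebraic integers. -/
noncomputable def Dec (P : Ideal Zb) : Subgroup GQ := MulAction.stabilizer GQ P

/-- The inertia group of an ideal `P` of the ring of algebraic integers. -/
noncomputable def Ine (P : Ideal Zb) : Subgroup GQ := P.inertia GQ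

/-- The absolute Galois group of a subfield `F` of `Qb`, as a subgroup of `Gal(Qb/ℚ)`. -/
noncomputable def GF (F : Sub) : Subgroup GQ := F.fixingSubgroup

/-- `P` does not lie above `l` or a member of `S`. -/
def Out (l : ℕ) (S : Finset ℕ) (P : Ideal Zb) : Prop :=
  P.IsMaximal ∧ (l : Zb) ∉ P ∧ ∀ p ∈ S, (p : Zb) ∉ P

/-- The union of the inertia groups outside `S ∪ {l}`. -/
def InOut (l : ℕ) (S : Finset ℕ) : Set GQ := {σ | ∃ P, Out l S P ∧ σ ∈ Ine P}

/-- For subgroups of a topological group: `H` contains no open subgroup `N`, normal in `H`, of index `l`, which contains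
`H ∩ I` and `H ∩ D`. -/
def NoIndex {Γ : Type} [Group Γ] [TopologicalSpace Γ] (l : ℕ) (H D : Subgroup Γ) (I : Set Γ) : Prop :=
  ∀ N : Subgroup Γ, N ≤ H → (∀ g ∈ H, ∀ n ∈ N, g * n * g⁻¹ ∈ N) → IsOpen (N : Set Γ) →
    N.relIndex H = l → (∀ σ ∈ I, σ ∈ H → σ ∈ N) → ¬ (∀ σ ∈ D, σ ∈ H → σ ∈ N)

/-- There is no cyclic extension of `F` of degree `l`, unramified outside `S ∪ {l, ∞}`, in which the place of `F` below
`P0` splits completely. -/
def Good (l : ℕ) (S : Finset ℕ) (F : Sub) (P0 : Ideal Zb) : Prop := NoIndex l (GF F) (Dec P0) (InOut l S)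

/-- `D ∩ H0` surjects onto `H0 / H`. -/
def Surj {Γ : Type} [Group Γ] (H0 H D : Subgroup Γ) : Prop := ∀ g ∈ H0, ∃ d ∈ D, d ∈ H0 ∧ d⁻¹ * g ∈ H

/-- `H` is normalised by `H0`. -/
def Normalised {Γ : Type} [Group Γ] (H0 H : Subgroup Γ) : Prop := ∀ g ∈ H0, ∀ n ∈ H, g * n * g⁻¹ ∈ H

/-- `M ≥ F` is a finite Galois extension of `F` of degree a power of `l`, unramified outside `S ∪ {l, ∞}`. -/
def LExt (l : ℕ) (S : Finset ℕ) (F M : Sub) : Prop :=
  FiniteDimensional ℚ M ∧ F ≤ M ∧ Normalised (GF F) (GF M) ∧ (∃ r : ℕ, (GF M).relIndex (GF F) = l ^ r) ∧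
    ∀ σ ∈ InOut l S, σ ∈ GF F → σ ∈ GF M

/-- `k` is contained in a finite Galois extension `M` of `F` of degree a power of `l`, unramified outside `S ∪ {l, ∞}`. -/
def Tower (l : ℕ) (S : Finset ℕ) (F k : Sub) : Prop := ∃ M : Sub, LExt l S F M ∧ k ≤ M

/-- The matrix over `ℚ_l` of an element of `GL_n(ℤ_l)`. -/
noncomputable def matQ (l : ℕ) [Fact l.Prime] {n : ℕ} (g : GL (Fin n) ℤ_[l]) : Matrix (Fin n) (Fin n) ℚ_[l] :=
  (g : Matrix (Fin n) (Fin n) ℤ_[l]).map (fun x : ℤ_[l] => (x : ℚ_[l]))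

/-- Reduction modulo `l`. -/
noncomputable def red (l : ℕ) [Fact l.Prime] {n : ℕ} : GL (Fin n) ℤ_[l] →* GL (Fin n) (ZMod l) :=
  Matrix.GeneralLinearGroup.map (PadicInt.toZMod (p := l))

/-- Representations of a group `Γ` on `ℤ_l^n`. -/
abbrev Rep (Γ : Type) [Group Γ] (l : ℕ) [Fact l.Prime] (n : ℕ) : Type := Γ →* GL (Fin n) ℤ_[l]

/-- A continuous representation `ρ` of `Γ` on `ℤ_l^n`, trivial on `I`, such that the elements of `H` act modulo `l` with
`l`-power order. -/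
def RepOK {Γ : Type} [Group Γ] [TopologicalSpace Γ] (l : ℕ) [Fact l.Prime] (n : ℕ) (I H : Set Γ)
    (ρ : Rep Γ l n) : Prop :=
  Continuous ρ ∧ (∀ σ ∈ I, ρ σ = 1) ∧ ∀ σ ∈ H, ∃ r : ℕ, (red l (ρ σ)) ^ (l ^ r) = 1

/-- Every continuous 1-cocycle of `Γ` with values in `ℚ_l^n`, zero on `I`, whose restriction to `D` is a coboundary, is
a coboundary. -/
def ConclH1 {Γ : Type} [Group Γ] [TopologicalSpace Γ] (l : ℕ) [Fact l.Prime] (n : ℕ) (I D : Set Γ)
    (ρ : Rep Γ l n) : Prop :=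
  ∀ c : Γ → (Fin n → ℚ_[l]), Continuous c → (∀ σ τ, c (σ * τ) = c σ + (matQ l (ρ σ)).mulVec (c τ)) →
    (∀ σ ∈ I, c σ = 0) → (∃ v : Fin n → ℚ_[l], ∀ σ ∈ D, c σ = (matQ l (ρ σ)).mulVec v - v) →
    ∃ v : Fin n → ℚ_[l], ∀ σ, c σ = (matQ l (ρ σ)).mulVec v - v

/-- The intersection of a set `A` with a subgroup `H`. -/
def On {Γ : Type} [Group Γ] (H : Subgroup Γ) (A : Set Γ) : Set H := {σ | σ.1 ∈ A}

/-- All classes vanish: for every representation `ρ` of a subgroup `K` on `ℤ_l^n` satisfying `RepOK`, the conclusion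
`ConclH1` holds (with `I`, `H`, `D` intersected with `K`). -/
def AllVanish {Γ : Type} [Group Γ] [TopologicalSpace Γ] (l : ℕ) [Fact l.Prime] (K H D : Subgroup Γ) (I : Set Γ) : Prop :=
  ∀ (n : ℕ) (ρ : Rep K l n), RepOK l n (On K I) (On K H) ρ → ConclH1 l n (On K I) (On K D) ρ

section field

variable (K : Type) [Field K] [NumberField K]

/-- `K` has exactly one prime above `l`. -/
def OnePrime (l : ℕ) : Prop := ∃! p : Ideal (𝓞 K), p.IsMaximal ∧ (l : 𝓞 K) ∈ p

/-- `q` lies above a member of `S`. -/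
def Above (S : Finset ℕ) (q : Ideal (𝓞 K)) : Prop := q.IsMaximal ∧ ∃ p ∈ S, (p : 𝓞 K) ∈ q

/-- The unit condition: the residue fields at the primes above `S` have order `≡ 1 mod l`, and the units of `K` surject
onto the product of their unit groups modulo `l`-th powers. -/
def UnitCond (l : ℕ) (S : Finset ℕ) : Prop :=
  (∀ q : Ideal (𝓞 K), Above K S q → l ∣ Nat.card (𝓞 K ⧸ q) - 1) ∧
  (∀ x : (q : Ideal (𝓞 K)) → (𝓞 K ⧸ q)ˣ, ∃ u : (𝓞 K)ˣ, ∀ q : Ideal (𝓞 K), Above K S q →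
    ∃ y : (𝓞 K ⧸ q)ˣ, Units.map (Ideal.Quotient.mk q).toMonoidHom u = x q * y ^ l)

/-- Case A. `K` has exactly one prime above `l`, class number prime to `l`, is totally complex if `l = 2`, and the unit
condition holds. -/
def CaseA (l : ℕ) (S : Finset ℕ) : Prop :=
  OnePrime K l ∧ Nat.Coprime (classNumber K) l ∧ (l ≠ 2 ∨ ∀ w : InfinitePlace K, w.IsComplex) ∧ UnitCond K l S

open IsDedekindDomain in
/-- Every `z` in `K^*` with even valuation at all primes outside `S ∪ {2}`, for which some `z y^2` is congruent to `1`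
modulo `4 v0` (that is, which is a square in the completion at `v0`), is a square in `K`. -/
def SqCond (S : Finset ℕ) (v0 : HeightOneSpectrum (𝓞 K)) : Prop :=
  ∀ z : K, z ≠ 0 → (∀ v : HeightOneSpectrum (𝓞 K), (2 : 𝓞 K) ∉ v.asIdeal → (∀ p ∈ S, (p : 𝓞 K) ∉ v.asIdeal) →
      IsSquare (v.valuation K z)) →
    (∃ y : K, v0.valuation K (z * y ^ 2 - 1) < v0.valuation K 4) → IsSquare z

/-- `q` is the prime of `K` below the ideal `P` of a ring `B` over `𝓞 K`. -/
def BelowP (q : Ideal (𝓞 K)) {B : Type} [CommRing B] (f : 𝓞 K →+* B) (P : Ideal B) : Prop := ∀ x, x ∈ q ↔ f x ∈ P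

end field

/-- Case B. `l = 2`, `F = ℚ`, and `S` is empty or consists of one prime `≡ ±3 mod 8`. -/
def CaseB (l : ℕ) (S : Finset ℕ) (F : Sub) : Prop :=
  l = 2 ∧ F = ⊥ ∧ (S = ∅ ∨ ∃ p : ℕ, p.Prime ∧ (p % 8 = 3 ∨ p % 8 = 5) ∧ S = {p})

open IsDedekindDomain in
/-- Case C. `l = 2`, and `SqCond` at the place below `P0`. -/
def CaseC (l : ℕ) (S : Finset ℕ) (F : Sub) [NumberField F] (P0 : Ideal Zb) : Prop :=
  l = 2 ∧ ∀ v0 : HeightOneSpectrum (𝓞 F), BelowP F v0.asIdeal (algebraMap (𝓞 F) Zb) P0 → SqCond F S v0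

/-- Case D. `l = 2`, `S = {11}`, and `F` is the cubic field of discriminant `-44` (generated by a root of
`x^3 - x^2 + x + 1`; its Galois closure is the 2-division field of `X_0(11)`). -/
def CaseD (l : ℕ) (S : Finset ℕ) (F : Sub) : Prop :=
  l = 2 ∧ S = {11} ∧ Module.finrank ℚ F = 3 ∧ ∃ θ : F, θ ^ 3 - θ ^ 2 + θ + 1 = 0

/-- Case G (the general case). The decomposition group of `P0` in `Gal(Qb/F0)` acts transitively on the embeddings of
`F` over `F0` (or: `F` has exactly one prime above `l`), and `Good` or case C holds. -/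
def CaseG (l : ℕ) (S : Finset ℕ) (F0 F : Sub) [NumberField F] (P0 : Ideal Zb) : Prop :=
  (Surj (GF F0) (GF F) (Dec P0) ∨ OnePrime F l) ∧ (Good l S F P0 ∨ CaseC l S F P0)

end Pool.RG2
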