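import Pool.Agent.Helper2.RG.Base

open scoped Pointwise NumberField
open NumberField Pool.RG

namespace Pool.Agent.Helper2.RG

section blk

variable {l : ℕ} [Fact l.Prime] {n : ℕ}

/-- block matrix `(A w; 0 1)` -/
noncomputable def bm (A : Matrix (Fin n) (Fin n) ℤ_[l]) (w : Fin n → ℤ_[l]) :
    Matrix (Fin n ⊕ Fin 1) (Fin n ⊕ Fin 1) ℤ_[l] :=
  Matrix.fromBlocks A (Matrix.of fun i _ => w i) 0 1

theorem bm_mul (A B : Matrix (Fin n) (Fin n) ℤ_[l]) (w u : Fin n → ℤ_[l]) :
    bm A w * bm B u = bm (A * B) (w + A.mulVec u) := by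
  unfold bm
  rw [Matrix.fromBlocks_multiply]
  congr 1
  · simp
  · ext i j
    simp only [Matrix.add_apply, Matrix.mul_apply, Matrix.of_apply, Matrix.mulVec, dotProduct, Pi.add_apply]
    simp [Matrix.one_apply, Fin.eq_zero, add_comm]
  · simp
  · simp

theorem bm_one : bm (1 : Matrix (Fin n) (Fin n) ℤ_[l]) 0 = 1 := by
  unfold bm
  have : (Matrix.of fun (i : Fin n) (_ : Fin 1) => (0 : Fin n → ℤ_[l]) i) = 0 := by ext; rfl
  rw [this, Matrix.fromBlocks_one]

/-- the unit -/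
noncomputable def bu (A : GL (Fin n) ℤ_[l]) (w : Fin n → ℤ_[l]) :
    (Matrix (Fin n ⊕ Fin 1) (Fin n ⊕ Fin 1) ℤ_[l])ˣ where
  val := bm A.1 w
  inv := bm A⁻¹.1 (-(A⁻¹.1.mulVec w))
  val_inv := by
    rw [bm_mul, Units.mul_inv]
    rw [Matrix.mulVec_neg, Matrix.mulVec_mulVec, Units.mul_inv, Matrix.one_mulVec, add_neg_cancel]
    exact bm_one
  inv_val := by
    rw [bm_mul, Units.inv_mul, neg_add_cancel]
    exact bm_one

/-- reindexing -/
noncomputable def ri : Matrix (Fin n ⊕ Fin 1) (Fin n ⊕ Fin 1) ℤ_[l] ≃+* Matrix (Fin (n + 1)) (Fin (n + 1)) ℤ_[l] :=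
  Matrix.reindexRingEquiv ℤ_[l] finSumFinEquiv

theorem bm_inj {A B : Matrix (Fin n) (Fin n) ℤ_[l]} {w u : Fin n → ℤ_[l]} (h : bm A w = bm B u) : w = u := by
  funext i
  have := congrFun (congrFun h (Sum.inl i)) (Sum.inr 0)
  simpa [bm] using this

end blk

theorem tCoh (hI : StIm) (hC : StConj) : StCoh := by
  intro l hl S F k P0 hk hH n ρ hρ c hc hcoc hin hloc
  obtain ⟨v, hv⟩ := hloc
  obtain ⟨hρc, hρin, hρres⟩ := hρ
  have hmul : ∀ g h : GL (Fin n) ℤ_[l], matQ l (g * h) = matQ l g * matQ l h := by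
    intro g h
    unfold matQ
    rw [Units.val_mul]
    exact Matrix.map_mul (f := (PadicInt.Coe.ringHom : ℤ_[l] →+* ℚ_[l]))
  have hmone : matQ l (1 : GL (Fin n) ℤ_[l]) = 1 := by
    unfold matQ
    rw [Units.val_one]
    exact Matrix.map_one _ (by simp) (by simp)
  have hmc : Continuous fun σ : GF k => matQ l (ρ σ) := by
    unfold matQ
    have h1 : Continuous fun σ : GF k => ((ρ σ : GL (Fin n) ℤ_[l]) : Matrix (Fin n) (Fin n) ℤ_[l]) :=
      Units.continuous_val.comp hρc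
    exact h1.matrix_map continuous_subtype_val
  -- the modified cocycle
  set c' : GF k → (Fin n → ℚ_[l]) := fun σ => c σ - ((matQ l (ρ σ)).mulVec v - v) with hc'
  have hc'c : Continuous c' := by
    refine hc.sub ((Continuous.matrix_mulVec hmc continuous_const).sub continuous_const)
  have hc'm : ∀ σ τ, c' (σ * τ) = c' σ + (matQ l (ρ σ)).mulVec (c' τ) := by
    intro σ τ
    simp only [hc']
    rw [hcoc, map_mul, hmul, Matrix.mulVec_sub, Matrix.mulVec_sub, Matrix.mulVec_mulVec]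
    abel
  have hc'D : ∀ σ : GF k, σ.1 ∈ Dec P0 → c' σ = 0 := by
    intro σ hσ
    simp only [hc']
    rw [hv σ hσ, sub_self]
  have hc'I : ∀ P, Out l S P → ∀ σ : GF k, σ.1 ∈ Ine P → c' σ = 0 := by
    intro P hP σ hσ
    simp only [hc']
    rw [hin P hP σ hσ, hρin P hP σ hσ, hmone, Matrix.one_mulVec]
    simp
  have hlpos : (0 : ℝ) < l := by exact_mod_cast hl.out.pos
  have hl1 : (1 : ℝ) < l := by exact_mod_cast hl.out.one_lt
  -- boundedness
  have hko : IsOpen (GF k : Set GQ) := IntermediateField.fixingSubgroup_isOpen k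
  have hcomp : CompactSpace (GF k) :=
    isCompact_iff_compactSpace.1 ((GF k).isClosed_of_isOpen hko).isCompact
  obtain ⟨C, hCb⟩ : ∃ C : ℝ, ∀ σ : GF k, ‖c' σ‖ ≤ C := by
    have := (isCompact_univ (X := GF k)).exists_bound_of_continuousOn hc'c.continuousOn
    obtain ⟨C, hC1⟩ := this
    exact ⟨C, fun σ => hC1 σ (Set.mem_univ _)⟩
  obtain ⟨b, hb⟩ : ∃ b : ℕ, C ≤ (l : ℝ) ^ b := by
    obtain ⟨b, hb⟩ := pow_unbounded_of_one_lt C hl1
    exact ⟨b, hb.le⟩
  have hnorm : ∀ σ : GF k, ∀ i, ‖(l : ℚ_[l]) ^ b * c' σ i‖ ≤ 1 := by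
    intro σ i
    rw [norm_mul, norm_pow, Padic.norm_p, inv_pow]
    have h1 : ‖c' σ i‖ ≤ (l : ℝ) ^ b := ((norm_le_pi_norm (c' σ) i).trans (hCb σ)).trans hb
    rw [inv_mul_le_iff₀ (pow_pos hlpos b), mul_one]
    exact h1
  set W0 : GF k → Fin n → ℤ_[l] := fun σ i => ⟨(l : ℚ_[l]) ^ b * c' σ i, hnorm σ i⟩ with hW0
  set W : GF k → Fin n → ℤ_[l] := fun σ i => (l : ℤ_[l]) * W0 σ i with hW
  have hWq : ∀ σ i, ((W σ i : ℤ_[l]) : ℚ_[l]) = (l : ℚ_[l]) ^ (b + 1) * c' σ i := by
    intro σ i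
    simp only [hW, hW0]
    push_cast
    rw [pow_succ]
    ring
  have hl0 : (l : ℚ_[l]) ^ (b + 1) ≠ 0 := pow_ne_zero _ (by exact_mod_cast hl.out.ne_zero)
  have hWm : ∀ σ τ, W (σ * τ) = W σ + ((ρ σ).1).mulVec (W τ) := by
    intro σ τ
    funext i
    rw [Pi.add_apply]
    apply PadicInt.ext
    rw [PadicInt.coe_add, hWq, hWq, hc'm, Pi.add_apply, mul_add]
    congr 1
    simp only [Matrix.mulVec, dotProduct]
    rw [PadicInt.coe_sum, Finset.mul_sum]
    refine Finset.sum_congr rfl fun j _ => ?_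
    rw [PadicInt.coe_mul, hWq]
    simp only [matQ, Matrix.map_apply]
    ring
  have hW0c : Continuous W := by
    refine continuous_pi fun i => ?_
    refine continuous_const.mul ?_
    refine Continuous.subtype_mk ?_ _
    exact continuous_const.mul ((continuous_apply i).comp hc'c)
  -- the extended representation
  let ρt : GF k →* GL (Fin (n + 1)) ℤ_[l] :=
    { toFun := fun σ => Units.map (ri (l := l) (n := n)).toRingHom.toMonoidHom (bu (ρ σ) (W σ))
      map_one' := by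
        have h0 : W 1 = 0 := by
          have h := hWm 1 1
          rw [mul_one, map_one, Units.val_one, Matrix.one_mulVec] at h
          simpa using h
        apply Units.ext
        change ri (bm (ρ 1).1 (W 1)) = 1
        rw [h0, map_one, Units.val_one, bm_one, map_one]
      map_mul' := by
        intro σ τ
        apply Units.ext
        change ri (bm (ρ (σ * τ)).1 (W (σ * τ))) = ri (bm (ρ σ).1 (W σ)) * ri (bm (ρ τ).1 (W τ))
        rw [← map_mul, bm_mul, hWm, map_mul, Units.val_mul] }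
  have hρtv : ∀ σ, ((ρt σ : GL (Fin (n + 1)) ℤ_[l]) : Matrix (Fin (n + 1)) (Fin (n + 1)) ℤ_[l])
      = ri (bm (ρ σ).1 (W σ)) := fun σ => rfl
  have hval : Continuous fun σ => ((ρt σ : GL (Fin (n + 1)) ℤ_[l]) : Matrix (Fin (n + 1)) (Fin (n + 1)) ℤ_[l]) := by
    simp only [hρtv]
    have h1 : Continuous fun σ : GF k => ((ρ σ : GL (Fin n) ℤ_[l]) : Matrix (Fin n) (Fin n) ℤ_[l]) :=
      Units.continuous_val.comp hρc
    have h2 : Continuous fun σ : GF k => bm (ρ σ).1 (W σ) := by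
      unfold bm
      refine Continuous.matrix_fromBlocks h1 ?_ continuous_const continuous_const
      refine continuous_matrix fun i j => ?_
      exact (continuous_apply i).comp hW0c
    unfold ri
    exact h2.matrix_reindex _ _
  have hρtc : Continuous ρt := by
    rw [Units.continuous_iff]
    refine ⟨hval, ?_⟩
    have : (fun σ => ((ρt σ)⁻¹ : GL (Fin (n + 1)) ℤ_[l]).1) = fun σ => (ρt σ⁻¹).1 := by
      funext σ
      rw [map_inv]
    change Continuous fun σ => ((ρt σ)⁻¹ : GL (Fin (n + 1)) ℤ_[l]).1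
    rw [this]
    exact hval.comp continuous_inv
  have hrt : RepOK l S F k (n + 1) ρt := by
    refine ⟨hρtc, ?_, ?_⟩
    · intro P hP σ hσ
      have h0 : W σ = 0 := by
        funext i
        apply PadicInt.ext
        rw [hWq, hc'I P hP σ hσ]
        simp
      apply Units.ext
      rw [hρtv, h0, hρin P hP σ hσ, Units.val_one, bm_one, map_one, Units.val_one]
    · intro σ hσ
      obtain ⟨r, hr⟩ := hρres σ hσ
      refine ⟨r, ?_⟩
      rw [← map_pow, ← map_pow] at hr ⊢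
      set τ := σ ^ (l ^ r) with hτ
      apply Units.ext
      ext i j
      have h1 : ∀ a b' : Fin n, PadicInt.toZMod ((ρ τ).1 a b') = (1 : Matrix (Fin n) (Fin n) (ZMod l)) a b' := by
        intro a b'
        have := congrArg (fun g : GL (Fin n) (ZMod l) => g.1 a b') hr
        simpa [Matrix.GeneralLinearGroup.map_apply] using this
      have h2 : ∀ a, PadicInt.toZMod (W τ a) = 0 := by
        intro a
        simp only [hW, map_mul, map_natCast, CharP.cast_eq_zero, zero_mul]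
      have h3 : ∀ x y : Fin n ⊕ Fin 1, PadicInt.toZMod (bm (ρ τ).1 (W τ) x y) =
          (1 : Matrix (Fin n ⊕ Fin 1) (Fin n ⊕ Fin 1) (ZMod l)) x y := by
        rintro (x | x) (y | y)
        · simp only [bm, Matrix.fromBlocks_apply₁₁, h1]
          simp [Matrix.one_apply]
        · simp only [bm, Matrix.fromBlocks_apply₁₂, Matrix.of_apply, h2]
          simp [Matrix.one_apply]
        · simp only [bm, Matrix.fromBlocks_apply₂₁, Matrix.zero_apply, map_zero]
          simp [Matrix.one_apply]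
        · simp only [bm, Matrix.fromBlocks_apply₂₂]
          simp [Matrix.one_apply, Fin.eq_zero]
      change PadicInt.toZMod ((ri (bm (ρ τ).1 (W τ))) i j) = _
      have h4 : (ri (bm (ρ τ).1 (W τ))) i j = bm (ρ τ).1 (W τ) (finSumFinEquiv.symm i) (finSumFinEquiv.symm j) := rfl
      rw [h4, h3]
      simp [Matrix.one_apply]
  have hIm := hI l S F k P0 hk hH (hC P0).2.2.2.2 (n + 1) ρt hrt
  refine ⟨v, fun σ => ?_⟩
  obtain ⟨τ, hτD, hτ⟩ := hIm σ
  have h5 : W τ = W σ := by
    have h6 : ri (bm (ρ τ).1 (W τ)) = ri (bm (ρ σ).1 (W σ)) := congrArg Units.val hτ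
    exact bm_inj (ri.injective h6)
  have h7 : c' σ = 0 := by
    funext i
    have h8 : ((W σ i : ℤ_[l]) : ℚ_[l]) = ((W τ i : ℤ_[l]) : ℚ_[l]) := by rw [h5]
    rw [hWq, hWq, hc'D τ hτD] at h8
    simpa [hl.out.ne_zero] using h8
  have h9 : c σ - ((matQ l (ρ σ)).mulVec v - v) = 0 := h7
  exact sub_eq_zero.1 h9

end Pool.Agent.Helper2.RG
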