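import Pool.Agent.Helper2.RG.Base

open scoped Pointwise NumberField
open NumberField Pool.RG

namespace Pool.Agent.Helper2.RG

/-- If `F/F0` is Galois and `F` has exactly one prime above `l`, the decomposition group of `P0` surjects onto `Gal(F/F0)`. -/
theorem tDS (hO : StOne) (l : ℕ) (hl : l.Prime) (F0 F : IntermediateField ℚ Qb) [NumberField F] (hF : F0 ≤ F)
    (hn : ∀ g ∈ GF F0, ∀ n ∈ GF F, g * n * g⁻¹ ∈ GF F)
    (h1 : ∃! p : Ideal (𝓞 F), p.IsMaximal ∧ (l : 𝓞 F) ∈ p)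
    (P0 : Ideal (𝓞 Qb)) (hP0 : P0.IsMaximal) (hlP0 : (l : 𝓞 Qb) ∈ P0) : DecSurj F0 F P0 := by
  intro g hg
  have hgl : (l : 𝓞 Qb) ∈ g • P0 := by
    rw [mem_smul]
    have : g⁻¹ • (l : 𝓞 Qb) = (l : 𝓞 Qb) := by
      apply NumberField.RingOfIntegers.ext
      rw [coe_smul']
      simp
    rw [this]
    exact hlP0
  obtain ⟨h, hh, hhP⟩ := hO l F hl h1 (g • P0) P0 (isMaximal_smul g P0 hP0) hP0 hgl hlP0
  have hF' : GF F ≤ GF F0 := IntermediateField.fixingSubgroup_le hF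
  refine ⟨h * g, ⟨(GF F0).mul_mem (hF' hh) hg, ?_⟩, ?_⟩
  · change h * g ∈ Dec P0
    rw [mem_Dec, mul_smul]
    exact hhP
  · have e : (h * g)⁻¹ * g = g⁻¹ * h⁻¹ * g⁻¹⁻¹ := by group
    rw [e]
    exact hn g⁻¹ ((GF F0).inv_mem hg) _ ((GF F).inv_mem hh)

end Pool.Agent.Helper2.RG
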