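import Pool.Agent.Helper2.RG.Base

open scoped Pointwise NumberField
open NumberField Pool.RG

namespace Pool.Agent.Helper2.RG

theorem tH (hU : StUnits) (hI : StIdeal) (hX : StIndex) : StH := by
  classical
  intro K L _ _ _ _ _ _ l hl hfin hinf hcl T hT hunit hin
  haveI : Fact l.Prime := ⟨hl⟩
  have hcard : Nat.card Gal(L/K) = l := by
    rw [IsGalois.card_aut_eq_finrank, hfin]
  haveI : IsCyclic Gal(L/K) := isCyclic_of_prime_card hcard
  obtain ⟨g, hg⟩ := IsCyclic.exists_generator (α := Gal(L/K))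
  -- the totally ramified primes belong to `T`
  have hRT : ∀ q, Ram K L q → q ∈ T := by
    rintro q ⟨P, hPm, hPq, hPI⟩
    by_contra hq
    have h1 := hin P hPm (by rw [hPq]; exact hq)
    rw [hPI] at h1
    have h2 : Nat.card (⊤ : Subgroup Gal(L/K)) = l := by
      rw [Subgroup.card_top, hcard]
    rw [h1] at h2
    rw [Subgroup.card_bot] at h2
    exact hl.one_lt.ne h2
  set T' := T.filter (fun q => Ram K L q) with hT'
  have hT'1 : ∀ q : Ideal (𝓞 K), q ∈ T' ↔ Ram K L q := by
    intro q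
    rw [hT', Finset.mem_filter]
    exact ⟨fun h => h.2, fun h => ⟨hRT q h, h⟩⟩
  obtain ⟨h1, h2, h3⟩ := hU K L l g hl hfin hg hinf
  have h4 := hI K L l g hl hfin hg hcl T' hT'1
  have h5 := hX K L l hl hfin T' (fun q hq => (hT'1 q).1 hq)
    (fun q hq => (hT q (Finset.mem_filter.1 hq).1).2)
    (fun x => by
      obtain ⟨u, hu⟩ := hunit x
      exact ⟨u, fun q hq => hu q (Finset.mem_filter.1 hq).1⟩) h1
  have h6 : 0 < l ^ T'.card := pow_pos hl.pos _
  have h7 := hl.one_lt
  nlinarith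

end Pool.Agent.Helper2.RG
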