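import Pool.Agent.Helper2.RG.Base

open scoped Pointwise NumberField
open NumberField Pool.RG

namespace Pool.Agent.Helper2.RG

theorem mem_of_coprime {G : Type*} [Group G] (W : Subgroup G) (y : G) (i j : ℕ) (h : Nat.Coprime i j)
    (hi : y ^ i ∈ W) (hj : y ^ j ∈ W) : y ∈ W := by
  obtain ⟨u, v, huv⟩ := Nat.isCoprime_iff_coprime.2 h
  have e : y = (y ^ i) ^ u * (y ^ j) ^ v := by
    rw [← zpow_natCast, ← zpow_natCast, ← zpow_mul, ← zpow_mul, ← zpow_add,
      show (i : ℤ) * u + (j : ℤ) * v = 1 by linarith, zpow_one]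
  rw [e]
  exact W.mul_mem (W.zpow_mem hi _) (W.zpow_mem hj _)

theorem tHeart (hF : StFrat) (hC : StConj) : StHeart := by
  classical
  intro l hl S F0 F k P0 hfd hF0F hF0k hGood hDS hTow U hUk hUo hUn hUp hUI g hg
  obtain ⟨M, hMfin, hFM, hkM, hMn, ⟨r, hr⟩, hMI⟩ := hTow
  have hGMF : GF M ≤ GF F := IntermediateField.fixingSubgroup_le hFM
  have hGMk : GF M ≤ GF k := IntermediateField.fixingSubgroup_le hkM
  have hMo : IsOpen (GF M : Set GQ) := IntermediateField.fixingSubgroup_isOpen M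
  have hFo : IsOpen (GF F : Set GQ) := IntermediateField.fixingSubgroup_isOpen F
  set U1 : Subgroup GQ := U ⊓ GF M with hU1
  have hU1o : IsOpen (U1 : Set GQ) := hUo.inter hMo
  set W : Subgroup (GF F) := U1.subgroupOf (GF F) with hW
  have hWo : IsOpen (W : Set (GF F)) := hU1o.preimage continuous_subtype_val
  have hcF : CompactSpace (GF F) :=
    isCompact_iff_compactSpace.1 ((GF F).isClosed_of_isOpen hFo).isCompact
  have hWfin : Finite (GF F ⧸ W) := Subgroup.quotient_finite_of_isOpen W hWo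
  have hWfi : W.FiniteIndex := Subgroup.finiteIndex_of_finite_quotient
  set N0 : Subgroup (GF F) := W.normalCore with hN0
  have hN0c : IsClosed (N0 : Set (GF F)) := W.normalCore_isClosed (W.isClosed_of_isOpen hWo)
  have hN0fi : N0.FiniteIndex := inferInstance
  have hN0o : IsOpen (N0 : Set (GF F)) := N0.isOpen_of_isClosed_of_finiteIndex hN0c
  set N' : Subgroup GQ := N0.map (GF F).subtype with hN'
  have hN'o : IsOpen (N' : Set GQ) := by
    rw [hN', Subgroup.coe_map]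
    exact hFo.isOpenMap_subtype_val _ hN0o
  have hN0W : N0 ≤ W := W.normalCore_le
  have hN'U : N' ≤ U := by
    rintro _ ⟨x, hx, rfl⟩
    exact (hN0W hx).1
  -- the subgroup of `M`
  set V : Subgroup (GF F) := (GF M).subgroupOf (GF F) with hV
  have hVn : V.Normal := by
    constructor
    intro n hn b
    exact hMn b.1 b.2 n.1 hn
  have hVi : V.index = l ^ r := hr
  -- every element has an `l`-power in `N0`
  have hpow : ∀ s : GF F, ∃ a : ℕ, s ^ (l ^ a) ∈ N0 := by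
    intro s
    have hm : s ^ (l ^ r) ∈ V := by
      rw [← hVi]
      exact V.pow_index_mem s
    set m := s ^ (l ^ r) with hmdef
    have hfinQ : Finite (GF F ⧸ N0) := inferInstance
    obtain ⟨a, c, hc, hac⟩ := Nat.exists_eq_pow_mul_and_not_dvd
      (n := orderOf (QuotientGroup.mk m : GF F ⧸ N0)) (orderOf_pos _).ne' l hl.out.ne_one
    have hxc : (m ^ (l ^ a)) ^ c ∈ N0 := by
      rw [← QuotientGroup.eq_one_iff, ← pow_mul, ← hac]
      rw [QuotientGroup.mk_pow]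
      exact pow_orderOf_eq_one _
    refine ⟨r + a, ?_⟩
    have e1 : s ^ (l ^ (r + a)) = m ^ (l ^ a) := by
      rw [hmdef, ← pow_mul, pow_add]
    rw [e1]
    intro b
    have hb : b * m * b⁻¹ ∈ V := hVn.conj_mem m hm b
    obtain ⟨rb, hrb⟩ := hUp ((b * m * b⁻¹ : GF F) : GQ) ⟨hGMk hb, (b * m * b⁻¹ : GF F).2⟩
    have h1 : (b * m * b⁻¹) ^ (l ^ rb) ∈ W := by
      rw [hW, Subgroup.mem_subgroupOf, hU1]
      refine ⟨?_, ?_⟩
      · simpa using hrb
      · have := V.pow_mem hb (l ^ rb)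
        exact this
    have h2 : (b * m ^ (l ^ a) * b⁻¹) ^ (l ^ rb) ∈ W := by
      rw [← conj_pow, ← pow_mul, mul_comm, pow_mul]
      exact W.pow_mem h1 _
    have h3 : (b * m ^ (l ^ a) * b⁻¹) ^ c ∈ W := by
      rw [conj_pow]
      exact hxc b
    refine mem_of_coprime W _ (l ^ rb) c ?_ h2 h3
    exact Nat.Coprime.pow_left _ ((hl.out.coprime_iff_not_dvd).2 hc)
  have hPG : IsPGroup l (GF F ⧸ N0) := by
    intro x
    obtain ⟨s, rfl⟩ := QuotientGroup.mk_surjective x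
    obtain ⟨a, ha⟩ := hpow s
    exact ⟨a, by rw [← QuotientGroup.mk_pow, QuotientGroup.eq_one_iff]; exact ha⟩
  -- inertia
  have hIN : ∀ P, Out l S P → GF F ⊓ Ine P ≤ N' := by
    intro P hP x hx
    refine ⟨⟨x, hx.1⟩, ?_, rfl⟩
    intro b
    have h1 : (b : GQ) * x * (b : GQ)⁻¹ ∈ Ine ((b : GQ) • P) := (hC P).1 b x hx.2
    have h2 : Out l S ((b : GQ) • P) := (hC P).2.2.1 l S b hP
    have h3 : (b : GQ) * x * (b : GQ)⁻¹ ∈ GF F :=
      (GF F).mul_mem ((GF F).mul_mem b.2 hx.1) ((GF F).inv_mem b.2)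
    have h4 : (b : GQ) * x * (b : GQ)⁻¹ ∈ GF M := hMI _ h2 ⟨h3, h1⟩
    have h5 : (b : GQ) * x * (b : GQ)⁻¹ ∈ U := hUI _ h2 ⟨hGMk h4, h1⟩
    rw [hW, Subgroup.mem_subgroupOf, hU1]
    exact ⟨h5, h4⟩
  -- the image of the decomposition group is everything
  set Db : Subgroup (GF F ⧸ N0) := ((Dec P0).subgroupOf (GF F)).map (QuotientGroup.mk' N0) with hDb
  have hDtop : Db = ⊤ := by
    refine hF l (GF F ⧸ N0) Db hPG ?_
    intro Nb hNbn hNbi hle
    have hcomap : N0 ≤ Nb.comap (QuotientGroup.mk' N0) := by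
      intro x hx
      rw [Subgroup.mem_comap]
      have : (QuotientGroup.mk' N0) x = 1 := (QuotientGroup.eq_one_iff x).2 hx
      rw [this]
      exact Nb.one_mem
    refine hGood ((Nb.comap (QuotientGroup.mk' N0)).map (GF F).subtype) ?_ ?_ ?_ ?_ ?_ ?_
    · rintro _ ⟨x, -, rfl⟩
      exact x.2
    · rintro b hb _ ⟨x, hx, rfl⟩
      refine ⟨⟨b, hb⟩ * x * ⟨b, hb⟩⁻¹, ?_, rfl⟩
      have : (Nb.comap (QuotientGroup.mk' N0)).Normal := hNbn.comap _
      exact this.conj_mem x hx _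
    · refine Subgroup.isOpen_mono (H₁ := N') ?_ hN'o
      exact Subgroup.map_mono hcomap
    · rw [Subgroup.relIndex, Subgroup.subgroupOf, Subgroup.comap_map_eq_self_of_injective (Subgroup.subtype_injective _)]
      rw [Subgroup.index_comap_of_surjective _ (QuotientGroup.mk'_surjective N0)]
      exact hNbi
    · intro P hP
      refine (hIN P hP).trans ?_
      exact Subgroup.map_mono hcomap
    · intro x hx
      refine ⟨⟨x, hx.1⟩, ?_, rfl⟩
      change (QuotientGroup.mk' N0) ⟨x, hx.1⟩ ∈ Nb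
      exact hle ⟨⟨x, hx.1⟩, hx.2, rfl⟩
  -- the end
  have hg0 : g ∈ GF F0 := IntermediateField.fixingSubgroup_le hF0k hg
  obtain ⟨d1, hd1, hd1g⟩ := hDS g hg0
  have h1 : (QuotientGroup.mk' N0) (⟨d1⁻¹ * g, hd1g⟩ : GF F) ∈ Db := by
    rw [hDtop]
    exact Subgroup.mem_top _
  obtain ⟨d2, hd2, hd2e⟩ := h1
  have h2 : d2⁻¹ * (⟨d1⁻¹ * g, hd1g⟩ : GF F) ∈ N0 := by
    rw [← QuotientGroup.eq]
    exact hd2e
  have h3 : (d1 * (d2 : GQ))⁻¹ * g ∈ U := by
    apply hN'U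
    refine ⟨_, h2, ?_⟩
    simp [mul_assoc]
  refine ⟨d1 * (d2 : GQ), ⟨?_, ?_⟩, h3⟩
  · have h4 : d1 * (d2 : GQ) = g * ((d1 * (d2 : GQ))⁻¹ * g)⁻¹ := by group
    rw [h4]
    exact (GF k).mul_mem hg ((GF k).inv_mem (hUk h3))
  · exact (Dec P0).mul_mem hd1.2 hd2

end Pool.Agent.Helper2.RG
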