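import Pool.Agent.Helper2.RG.Base

open scoped Pointwise NumberField
open NumberField Pool.RG

namespace Pool.Agent.Helper2.RG

theorem tLift (hP : StProf) : StLift := by
  intro F L hFL hn P hPm τ hτ h
  obtain ⟨h1, h2⟩ := hP L
  have hst := stable F L hn
  -- `τ • P` and `P` agree on `L`
  have hmax : (τ • P).IsMaximal := by
    have : (τ • P) = P.map (MulSemiringAction.toRingEquiv GQ (𝓞 Qb) τ : (𝓞 Qb) →+* (𝓞 Qb)) := by
      rfl
    rw [this]
    exact Ideal.map_isMaximal_of_equiv (p := P) (MulSemiringAction.toRingEquiv GQ (𝓞 Qb) τ)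
  have key : ∀ x : 𝓞 Qb, (x : Qb) ∈ L → (x ∈ τ • P ↔ x ∈ P) := by
    intro x hx
    rw [Ideal.mem_pointwise_smul_iff_inv_smul_mem]
    have hx' : ((τ⁻¹ • x : 𝓞 Qb) : Qb) ∈ L := by
      rw [coe_smul']
      exact hst τ⁻¹ (inv_mem hτ) _ hx
    have h3 := h (τ⁻¹ • x) hx'
    rw [smul_inv_smul] at h3
    constructor
    · intro h4
      have := P.add_mem h3 h4
      simpa using this
    · intro h4
      have := P.sub_mem h4 h3
      simpa using this
  obtain ⟨a, ha, haP⟩ := h1 (τ • P) P hmax hPm key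
  have haτ : a * τ ∈ Dec P := by
    rw [mem_Dec, mul_smul]
    exact haP
  obtain ⟨g, hg, hg2⟩ := h2 P hPm (a * τ) haτ (by
    intro x hx
    have : (a * τ) • x = τ • x := by
      apply NumberField.RingOfIntegers.ext
      rw [coe_smul', coe_smul']
      exact (mem_GF L a).1 ha _ (hst τ hτ _ hx)
    rw [this]
    exact h x hx)
  refine ⟨g⁻¹ * (a * τ), ⟨?_, ?_⟩, ?_⟩
  · have hLF : GF L ≤ GF F := IntermediateField.fixingSubgroup_le hFL
    exact (GF F).mul_mem ((GF F).inv_mem (hLF hg.1)) ((GF F).mul_mem (hLF ha) hτ)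
  · change g⁻¹ * (a * τ) ∈ Ine P
    rw [mem_Ine]
    intro x
    have h3 := hg2 x
    have h4 : g • P = P := hg.2
    have h5 : g⁻¹ • (g • x - (a * τ) • x) ∈ P := by
      rw [← Ideal.mem_pointwise_smul_iff_inv_smul_mem, h4]
      exact h3
    rw [smul_sub, inv_smul_smul, ← mul_smul] at h5
    have h6 := P.neg_mem h5
    simpa using h6
  · have h7 : (g⁻¹ * (a * τ))⁻¹ * τ = τ⁻¹ * (a⁻¹ * g) * τ⁻¹⁻¹ := by group
    rw [h7]
    exact hn τ⁻¹ (inv_mem hτ) _ (mul_mem (inv_mem ha) hg.1)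

end Pool.Agent.Helper2.RG
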