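import Pool.Agent.Helper20.RG.St1

set_option autoImplicit false

namespace Pool.Agent.Helper2.RG

open Pool.Agent.Helper20.RG
open scoped ENNReal

theorem geo_sum (C : ℝ) (hC : 0 ≤ C) :
    ∑' n : ℕ, ENNReal.ofReal (C * (1 / 2) ^ n) = ENNReal.ofReal (2 * C) := by
  have h1 : ∀ n : ℕ, 0 ≤ C * (1 / 2 : ℝ) ^ n := fun n => by positivity
  have h2 : Summable (fun n : ℕ => C * (1 / 2 : ℝ) ^ n) :=
    (summable_geometric_of_lt_one (by norm_num) (by norm_num)).mul_left C
  rw [← ENNReal.ofReal_tsum_of_nonneg h1 h2, tsum_mul_left,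
    tsum_geometric_of_lt_one (by norm_num) (by norm_num)]
  congr 1
  ring

theorem hOCT : StOCT := by
  intro f r C p q hr hC hpq h0 h1 h2
  -- normalise `r`
  obtain ⟨κ, hκ⟩ := exists_mem_Ico_zpow (x := 1 / r) (y := (2:ℝ)) (by positivity) (by norm_num)
  obtain ⟨hκ1, hκ2⟩ := hκ
  have hk1 : (2:ℝ) ^ κ * r ≤ 1 := by
    rwa [le_div_iff₀ hr] at hκ1
  have hk2 : 1 < 2 * ((2:ℝ) ^ κ * r) := by
    rw [div_lt_iff₀ hr, zpow_add_one₀ (by norm_num)] at hκ2
    linarith
  set ρ := (2:ℝ) ^ κ * r with hρ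
  have hρ0 : 0 < ρ := by positivity
  set g : ℤ → ℝ≥0∞ := fun k => f (k + κ) with hg
  have hsum : ∑' k : ℤ, f k = ∑' k : ℤ, g k := by
    rw [hg]
    exact (Equiv.addRight κ).tsum_eq f |>.symm
  rw [hsum]
  have hmul : ∀ k : ℤ, (2:ℝ) ^ (k + κ) * r = 2 ^ k * ρ := by
    intro k
    rw [hρ, zpow_add₀ (by norm_num)]
    ring
  have ha : ∀ k : ℤ, k ≤ p → g k ≤ ENNReal.ofReal (C * (2:ℝ) ^ (k - p)) := by
    intro k hk
    have e := hmul k
    have hle : (2:ℝ) ^ k ≤ 2 ^ p := zpow_le_zpow_right₀ (by norm_num) hk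
    have hle2 : (2:ℝ) ^ k * ρ ≤ 2 ^ k := mul_le_of_le_one_right (by positivity) hk1
    refine (h1 (k + κ) (by rw [e]; linarith)).trans ?_
    apply ENNReal.ofReal_le_ofReal
    apply mul_le_mul_of_nonneg_left _ hC
    rw [e, zpow_sub₀ (by norm_num)]
    exact div_le_div_of_nonneg_right hle2 (by positivity)
  have hb : ∀ k : ℤ, g k ≤ ENNReal.ofReal C := fun k => h0 _
  have hc : ∀ k : ℤ, q + 1 ≤ k → g k ≤ ENNReal.ofReal (C * (2:ℝ) ^ (q + 1 - k)) := by
    intro k hk
    have e := hmul k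
    have h3 : (2:ℝ) ^ (q + 1) ≤ 2 ^ k := zpow_le_zpow_right₀ (by norm_num) hk
    have h4 : (2:ℝ) ^ (q + 1) = 2 * 2 ^ q := by
      rw [zpow_add_one₀ (by norm_num)]
      ring
    have hkp : (0:ℝ) < 2 ^ k := by positivity
    have hqp : (0:ℝ) < 2 ^ q := by positivity
    have h5 : (2:ℝ) ^ q ≤ 2 ^ k * ρ := by nlinarith
    refine (h2 (k + κ) (by rw [e]; exact h5)).trans ?_
    apply ENNReal.ofReal_le_ofReal
    apply mul_le_mul_of_nonneg_left _ hC
    rw [e, zpow_sub₀ (by norm_num), h4, div_le_div_iff₀ (by positivity) (by positivity)]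
    nlinarith [mul_pos hqp hkp]
  -- the three parts
  set a : ℤ → ℝ≥0∞ := fun k => if k ≤ p then ENNReal.ofReal (C * (2:ℝ) ^ (k - p)) else 0 with hadef
  set b : ℤ → ℝ≥0∞ := fun k => if k ∈ Finset.Ioc p q then ENNReal.ofReal C else 0 with hbdef
  set c : ℤ → ℝ≥0∞ := fun k => if q + 1 ≤ k then ENNReal.ofReal (C * (2:ℝ) ^ (q + 1 - k)) else 0
    with hcdef
  have hle : ∀ k, g k ≤ a k + b k + c k := by
    intro k
    by_cases hk : k ≤ p
    · have : a k = ENNReal.ofReal (C * (2:ℝ) ^ (k - p)) := by simp [hadef, hk]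
      calc g k ≤ a k := by rw [this]; exact ha k hk
        _ ≤ a k + b k + c k := by rw [add_assoc]; exact le_self_add
    · by_cases hk2 : k ≤ q
      · have : b k = ENNReal.ofReal C := by
          simp only [hbdef, Finset.mem_Ioc]
          rw [if_pos ⟨by omega, hk2⟩]
        calc g k ≤ b k := by rw [this]; exact hb k
          _ ≤ a k + b k := le_add_self
          _ ≤ a k + b k + c k := le_self_add
      · have : c k = ENNReal.ofReal (C * (2:ℝ) ^ (q + 1 - k)) := by
          simp only [hcdef]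
          rw [if_pos (by omega)]
        calc g k ≤ c k := by rw [this]; exact hc k (by omega)
          _ ≤ a k + b k + c k := le_add_self
  have hA : ∑' k, a k = ENNReal.ofReal (2 * C) := by
    rw [← geo_sum C hC]
    have hinj : Function.Injective (fun n : ℕ => p - (n : ℤ)) := by
      intro x y hxy
      have : p - (x:ℤ) = p - y := hxy
      omega
    rw [← hinj.tsum_eq (f := a)]
    · congr 1
      funext n
      have : p - (n:ℤ) ≤ p := by omega
      simp only [hadef, this, if_true]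
      congr 2
      rw [show p - (n:ℤ) - p = -(n:ℤ) by ring, zpow_neg, zpow_natCast, one_div, inv_pow]
    · intro k hk
      rw [Function.mem_support] at hk
      have hkp : k ≤ p := by
        by_contra hcon
        exact hk (by simp only [hadef]; rw [if_neg hcon])
      exact ⟨(p - k).toNat, by simp; omega⟩
  have hC' : ∑' k, c k = ENNReal.ofReal (2 * C) := by
    rw [← geo_sum C hC]
    have hinj : Function.Injective (fun n : ℕ => q + 1 + (n : ℤ)) := by
      intro x y hxy
      have : q + 1 + (x:ℤ) = q + 1 + y := hxy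
      omega
    rw [← hinj.tsum_eq (f := c)]
    · congr 1
      funext n
      have : q + 1 ≤ q + 1 + (n:ℤ) := by omega
      simp only [hcdef, this, if_true]
      congr 2
      rw [show q + 1 - (q + 1 + (n:ℤ)) = -(n:ℤ) by ring, zpow_neg, zpow_natCast, one_div, inv_pow]
    · intro k hk
      rw [Function.mem_support] at hk
      have hkp : q + 1 ≤ k := by
        by_contra hcon
        exact hk (by simp only [hcdef]; rw [if_neg hcon])
      exact ⟨(k - (q + 1)).toNat, by simp; omega⟩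
  have hB' : ∑' k, b k = ENNReal.ofReal (C * ((q:ℝ) - p)) := by
    rw [tsum_eq_sum (s := Finset.Ioc p q) (fun k hk => by simp only [hbdef]; rw [if_neg hk])]
    have h3 : ∑ k ∈ Finset.Ioc p q, b k = ∑ k ∈ Finset.Ioc p q, ENNReal.ofReal C :=
      Finset.sum_congr rfl (fun k hk => by simp only [hbdef]; rw [if_pos hk])
    rw [h3, Finset.sum_const, Int.card_Ioc, nsmul_eq_mul]
    have h4 : (((q - p).toNat : ℕ) : ℝ≥0∞) = ENNReal.ofReal ((q:ℝ) - p) := by
      rw [← ENNReal.ofReal_natCast]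
      congr 1
      have : (((q - p).toNat : ℤ) : ℝ) = ((q - p : ℤ) : ℝ) := by
        rw [Int.toNat_of_nonneg (by omega)]
      push_cast at this
      exact_mod_cast this
    rw [h4, ← ENNReal.ofReal_mul (by
      have : (p:ℝ) ≤ q := by exact_mod_cast hpq
      linarith)]
    congr 1
    ring
  calc ∑' k, g k ≤ ∑' k, (a k + b k + c k) := ENNReal.tsum_le_tsum hle
    _ = ∑' k, a k + ∑' k, b k + ∑' k, c k := by rw [ENNReal.tsum_add, ENNReal.tsum_add]
    _ = ENNReal.ofReal (2 * C) + ENNReal.ofReal (C * ((q:ℝ) - p)) + ENNReal.ofReal (2 * C) := by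
      rw [hA, hB', hC']
    _ ≤ ENNReal.ofReal (C * ((q : ℝ) - p + 8)) := by
      have hpq' : (p:ℝ) ≤ q := by exact_mod_cast hpq
      have h5 : 0 ≤ C * ((q:ℝ) - p) := mul_nonneg hC (by linarith)
      rw [← ENNReal.ofReal_add (by positivity) h5, ← ENNReal.ofReal_add (by positivity) (by positivity)]
      apply ENNReal.ofReal_le_ofReal
      nlinarith

end Pool.Agent.Helper2.RG
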