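import Pool.Agent.Helper69.RG.St

set_option autoImplicit false

open scoped BigOperators ENNReal
open Pool.LE Pool.NL

namespace Pool.RG

namespace R4M

theorem sq_two (a b : ℝ) :
    ENNReal.ofReal ((a + b) ^ 2) ≤ 2 * ENNReal.ofReal (a ^ 2) + 2 * ENNReal.ofReal (b ^ 2) := by
  have h2 : (2 : ENNReal) = ENNReal.ofReal 2 := by
    rw [ENNReal.ofReal_ofNat]
  rw [h2, ← ENNReal.ofReal_mul (by norm_num), ← ENNReal.ofReal_mul (by norm_num),
    ← ENNReal.ofReal_add (by positivity) (by positivity)]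
  apply ENNReal.ofReal_le_ofReal
  nlinarith [sq_nonneg (a - b)]

theorem trans_inv {d : ℕ} (F : Zd d → ENNReal) (z : Zd d) :
    ∑' x : Zd d, F (x + z) = ∑' x : Zd d, F x :=
  (Equiv.addRight z).tsum_eq F

theorem En_swap {d : ℕ} (w : Zd d → ℝ) :
    En w = ∑ i : Fin d, ∑' x : Zd d,
      ENNReal.ofReal ((w (x + Pi.single i (1 : ℤ)) - w x) ^ 2) := by
  unfold En
  exact Summable.tsum_finsetSum (fun i _ => ENNReal.summable)

theorem partA {d : ℕ} (w₁ w₂ : Zd d → ℝ) :
    En (fun x => w₁ x + w₂ x) ≤ 2 * En w₁ + 2 * En w₂ := by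
  unfold En
  rw [← ENNReal.tsum_mul_left, ← ENNReal.tsum_mul_left, ← ENNReal.tsum_add]
  apply ENNReal.tsum_le_tsum
  intro x
  rw [Finset.mul_sum, Finset.mul_sum, ← Finset.sum_add_distrib]
  apply Finset.sum_le_sum
  intro i _
  have h : w₁ (x + Pi.single i (1 : ℤ)) + w₂ (x + Pi.single i (1 : ℤ)) - (w₁ x + w₂ x) =
      (w₁ (x + Pi.single i (1 : ℤ)) - w₁ x) + (w₂ (x + Pi.single i (1 : ℤ)) - w₂ x) := by ring
  simp only [h]
  exact sq_two _ _

theorem partB {d : ℕ} (w : Zd d → ℝ) :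
    En w ≤ 4 * d * ∑' x : Zd d, ENNReal.ofReal (w x ^ 2) := by
  rw [En_swap]
  have h : ∀ i : Fin d, ∑' x : Zd d,
      ENNReal.ofReal ((w (x + Pi.single i (1 : ℤ)) - w x) ^ 2) ≤
      4 * ∑' x : Zd d, ENNReal.ofReal (w x ^ 2) := by
    intro i
    calc ∑' x : Zd d, ENNReal.ofReal ((w (x + Pi.single i (1 : ℤ)) - w x) ^ 2)
        ≤ ∑' x : Zd d, (2 * ENNReal.ofReal (w (x + Pi.single i (1 : ℤ)) ^ 2) +
            2 * ENNReal.ofReal (w x ^ 2)) := by
          apply ENNReal.tsum_le_tsum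
          intro x
          have := sq_two (w (x + Pi.single i (1 : ℤ))) (- w x)
          rw [neg_sq] at this
          rw [sub_eq_add_neg]
          exact this
      _ = 2 * ∑' x : Zd d, ENNReal.ofReal (w (x + Pi.single i (1 : ℤ)) ^ 2) +
            2 * ∑' x : Zd d, ENNReal.ofReal (w x ^ 2) := by
          rw [ENNReal.tsum_add, ENNReal.tsum_mul_left, ENNReal.tsum_mul_left]
      _ = 2 * ∑' x : Zd d, ENNReal.ofReal (w x ^ 2) +
            2 * ∑' x : Zd d, ENNReal.ofReal (w x ^ 2) := by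
          rw [trans_inv (fun x => ENNReal.ofReal (w x ^ 2)) (Pi.single i (1 : ℤ))]
      _ = 4 * ∑' x : Zd d, ENNReal.ofReal (w x ^ 2) := by
          rw [← add_mul]
          norm_num
  calc ∑ i : Fin d, ∑' x : Zd d,
      ENNReal.ofReal ((w (x + Pi.single i (1 : ℤ)) - w x) ^ 2)
      ≤ ∑ i : Fin d, 4 * ∑' x : Zd d, ENNReal.ofReal (w x ^ 2) :=
        Finset.sum_le_sum (fun i _ => h i)
    _ = 4 * d * ∑' x : Zd d, ENNReal.ofReal (w x ^ 2) := by
        rw [Finset.sum_const, Finset.card_univ, Fintype.card_fin, nsmul_eq_mul]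
        ring

/-- Cauchy-Schwarz with weights, finite sum -/
theorem cs {ι : Type} (T : Finset ι) (f D : ι → ℝ) :
    (∑ y ∈ T, f y * D y) ^ 2 ≤ (∑ y ∈ T, |f y|) * ∑ y ∈ T, |f y| * D y ^ 2 := by
  have h1 : (∑ y ∈ T, f y * D y) ^ 2 ≤ (∑ y ∈ T, |f y| * |D y|) ^ 2 := by
    rw [← sq_abs (∑ y ∈ T, f y * D y)]
    apply pow_le_pow_left₀ (abs_nonneg _)
    calc |∑ y ∈ T, f y * D y| ≤ ∑ y ∈ T, |f y * D y| := Finset.abs_sum_le_sum_abs _ _
      _ = ∑ y ∈ T, |f y| * |D y| := Finset.sum_congr rfl (fun y _ => abs_mul _ _)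
  have h2 := Finset.sum_mul_sq_le_sq_mul_sq T (fun y => Real.sqrt |f y|)
    (fun y => Real.sqrt |f y| * |D y|)
  have e1 : ∑ y ∈ T, Real.sqrt |f y| * (Real.sqrt |f y| * |D y|) = ∑ y ∈ T, |f y| * |D y| := by
    apply Finset.sum_congr rfl
    intro y _
    rw [← mul_assoc, Real.mul_self_sqrt (abs_nonneg _)]
  have e2 : ∑ y ∈ T, Real.sqrt |f y| ^ 2 = ∑ y ∈ T, |f y| := by
    apply Finset.sum_congr rfl
    intro y _
    rw [Real.sq_sqrt (abs_nonneg _)]
  have e3 : ∑ y ∈ T, (Real.sqrt |f y| * |D y|) ^ 2 = ∑ y ∈ T, |f y| * D y ^ 2 := by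
    apply Finset.sum_congr rfl
    intro y _
    rw [mul_pow, Real.sq_sqrt (abs_nonneg _), sq_abs]
  simp only [e1, e2, e3] at h2
  exact h1.trans h2

theorem conv_bound {d : ℕ} (f D : Zd d → ℝ) (a : ℝ) (hf : Summable (fun x => |f x|))
    (ha : ∑' x : Zd d, |f x| ≤ a) (hD : FS D) :
    ∑' x : Zd d, ENNReal.ofReal ((∑' y, f y * D (x - y)) ^ 2) ≤
      ENNReal.ofReal (a ^ 2) * ∑' x : Zd d, ENNReal.ofReal (D x ^ 2) := by
  obtain ⟨F, hF⟩ := hD
  have ha0 : 0 ≤ a := le_trans (tsum_nonneg (fun x => abs_nonneg _)) ha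
  have hpt : ∀ x : Zd d, ENNReal.ofReal ((∑' y, f y * D (x - y)) ^ 2) ≤
      ENNReal.ofReal a * ∑' y : Zd d, ENNReal.ofReal |f y| * ENNReal.ofReal (D (x - y) ^ 2) := by
    intro x
    classical
    let T : Finset (Zd d) := F.image (fun z => x - z)
    have hT : ∀ y, y ∉ T → D (x - y) = 0 := by
      intro y hy
      apply hF
      intro hmem
      apply hy
      exact Finset.mem_image.2 ⟨x - y, hmem, by simp⟩
    have e1 : ∑' y, f y * D (x - y) = ∑ y ∈ T, f y * D (x - y) :=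
      tsum_eq_sum (fun y hy => by rw [hT y hy, mul_zero])
    rw [e1]
    have h1 := cs T f (fun y => D (x - y))
    have h2 : ∑ y ∈ T, |f y| ≤ a := le_trans (hf.sum_le_tsum T (fun _ _ => abs_nonneg _)) ha
    have h3 : 0 ≤ ∑ y ∈ T, |f y| * D (x - y) ^ 2 :=
      Finset.sum_nonneg (fun y _ => mul_nonneg (abs_nonneg _) (sq_nonneg _))
    have h4 : (∑ y ∈ T, f y * D (x - y)) ^ 2 ≤ a * ∑ y ∈ T, |f y| * D (x - y) ^ 2 :=
      h1.trans (mul_le_mul_of_nonneg_right h2 h3)
    calc ENNReal.ofReal ((∑ y ∈ T, f y * D (x - y)) ^ 2)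
        ≤ ENNReal.ofReal (a * ∑ y ∈ T, |f y| * D (x - y) ^ 2) := ENNReal.ofReal_le_ofReal h4
      _ = ENNReal.ofReal a * ∑ y ∈ T, ENNReal.ofReal |f y| * ENNReal.ofReal (D (x - y) ^ 2) := by
          rw [ENNReal.ofReal_mul ha0, ENNReal.ofReal_sum_of_nonneg
            (fun y _ => mul_nonneg (abs_nonneg _) (sq_nonneg _))]
          apply congrArg
          apply Finset.sum_congr rfl
          intro y _
          exact ENNReal.ofReal_mul (abs_nonneg _)
      _ ≤ ENNReal.ofReal a *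
            ∑' y : Zd d, ENNReal.ofReal |f y| * ENNReal.ofReal (D (x - y) ^ 2) := by
          gcongr
          exact ENNReal.sum_le_tsum T
  calc ∑' x : Zd d, ENNReal.ofReal ((∑' y, f y * D (x - y)) ^ 2)
      ≤ ∑' x : Zd d, ENNReal.ofReal a *
          ∑' y : Zd d, ENNReal.ofReal |f y| * ENNReal.ofReal (D (x - y) ^ 2) :=
        ENNReal.tsum_le_tsum hpt
    _ = ENNReal.ofReal a * ∑' y : Zd d, ∑' x : Zd d,
          ENNReal.ofReal |f y| * ENNReal.ofReal (D (x - y) ^ 2) := by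
        rw [ENNReal.tsum_mul_left, ENNReal.tsum_comm]
    _ = ENNReal.ofReal a * ∑' y : Zd d, ENNReal.ofReal |f y| *
          ∑' x : Zd d, ENNReal.ofReal (D x ^ 2) := by
        apply congrArg
        apply tsum_congr
        intro y
        rw [ENNReal.tsum_mul_left]
        apply congrArg
        have := trans_inv (fun x => ENNReal.ofReal (D x ^ 2)) (-y)
        rw [← this]
        apply tsum_congr
        intro x
        rw [sub_eq_add_neg]
    _ = ENNReal.ofReal a * ((∑' y : Zd d, ENNReal.ofReal |f y|) *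
          ∑' x : Zd d, ENNReal.ofReal (D x ^ 2)) := by
        rw [ENNReal.tsum_mul_right]
    _ ≤ ENNReal.ofReal a * (ENNReal.ofReal a *
          ∑' x : Zd d, ENNReal.ofReal (D x ^ 2)) := by
        gcongr
        rw [← ENNReal.ofReal_tsum_of_nonneg (fun x => abs_nonneg _) hf]
        exact ENNReal.ofReal_le_ofReal ha
    _ = ENNReal.ofReal (a ^ 2) * ∑' x : Zd d, ENNReal.ofReal (D x ^ 2) := by
        rw [← mul_assoc, ← ENNReal.ofReal_mul ha0, pow_two]

/-- difference in direction `i` -/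
noncomputable def dif {d : ℕ} (v : Zd d → ℝ) (i : Fin d) (z : Zd d) : ℝ :=
  v (z + Pi.single i (1 : ℤ)) - v z

theorem FS_dif {d : ℕ} (v : Zd d → ℝ) (hv : FS v) (i : Fin d) : FS (dif v i) := by
  classical
  obtain ⟨F, hF⟩ := hv
  refine ⟨F ∪ F.image (fun z => z - Pi.single i (1 : ℤ)), ?_⟩
  intro x hx
  rw [Finset.mem_union, not_or] at hx
  have h1 := hF x hx.1
  have h2 : v (x + Pi.single i (1 : ℤ)) = 0 := by
    apply hF
    intro hmem
    apply hx.2
    exact Finset.mem_image.2 ⟨x + Pi.single i (1 : ℤ), hmem, by simp⟩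
  unfold dif
  rw [h1, h2, sub_zero]

theorem cv_summable {d : ℕ} (f v : Zd d → ℝ) (hv : FS v) (x : Zd d) :
    Summable (fun y => f y * v (x - y)) := by
  classical
  obtain ⟨F, hF⟩ := hv
  apply summable_of_ne_finset_zero (s := F.image (fun z => x - z))
  intro y hy
  rw [hF (x - y), mul_zero]
  intro hmem
  apply hy
  exact Finset.mem_image.2 ⟨x - y, hmem, by simp⟩

theorem cv_dif {d : ℕ} (f v : Zd d → ℝ) (hv : FS v) (i : Fin d) (x : Zd d) :
    cv f v (x + Pi.single i (1 : ℤ)) - cv f v x = ∑' y, f y * dif v i (x - y) := by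
  unfold cv
  have g1 := cv_summable f v hv (x + Pi.single i (1 : ℤ))
  have g2 := cv_summable f v hv x
  rw [← Summable.tsum_sub g1 g2]
  apply tsum_congr
  intro y
  have h : x + Pi.single i (1 : ℤ) - y = x - y + Pi.single i (1 : ℤ) := by abel
  unfold dif
  rw [h]
  ring

theorem partC {d : ℕ} (f v : Zd d → ℝ) (a : ℝ) (hf : Summable (fun x => |f x|))
    (ha : ∑' x : Zd d, |f x| ≤ a) (hv : FS v) :
    En (cv f v) ≤ ENNReal.ofReal (a ^ 2) * En v := by
  rw [En_swap, En_swap, Finset.mul_sum]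
  apply Finset.sum_le_sum
  intro i _
  have h1 := conv_bound f (dif v i) a hf ha (FS_dif v hv i)
  have h2 : ∀ x : Zd d, ENNReal.ofReal ((cv f v (x + Pi.single i (1 : ℤ)) - cv f v x) ^ 2) =
      ENNReal.ofReal ((∑' y, f y * dif v i (x - y)) ^ 2) := by
    intro x
    rw [cv_dif f v hv i x]
  rw [tsum_congr h2]
  unfold dif at h1
  exact h1

/-- the quadratic variation in direction `z` -/
noncomputable def Qv {d : ℕ} (w : Zd d → ℝ) (z : Zd d) : ENNReal :=
  ∑' x : Zd d, ENNReal.ofReal ((w (x + z) - w x) ^ 2)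

theorem Qv_zero {d : ℕ} (w : Zd d → ℝ) : Qv w 0 = 0 := by
  unfold Qv
  simp

theorem Qv_single {d : ℕ} (w : Zd d → ℝ) (i : Fin d) :
    Qv w (Pi.single i (1 : ℤ)) ≤ En w := by
  rw [En_swap]
  exact Finset.single_le_sum (f := fun i : Fin d => ∑' x : Zd d,
    ENNReal.ofReal ((w (x + Pi.single i (1 : ℤ)) - w x) ^ 2)) (fun _ _ => zero_le)
    (Finset.mem_univ i)

theorem Qv_neg {d : ℕ} (w : Zd d → ℝ) (z : Zd d) : Qv w (-z) = Qv w z := by
  unfold Qv
  rw [← trans_inv (fun x => ENNReal.ofReal ((w (x + -z) - w x) ^ 2)) z]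
  apply tsum_congr
  intro x
  have h : x + z + -z = x := by abel
  rw [h, ← neg_sub, neg_sq]

theorem Qv_add {d : ℕ} (w : Zd d → ℝ) (z s : Zd d) (m : ℕ) :
    (m : ENNReal) * Qv w (z + s) ≤
      ((m : ENNReal) + 1) * Qv w z + (m : ENNReal) * ((m : ENNReal) + 1) * Qv w s := by
  have h0 : Qv w s = ∑' x : Zd d, ENNReal.ofReal ((w (x + z + s) - w (x + z)) ^ 2) :=
    (trans_inv (fun x => ENNReal.ofReal ((w (x + s) - w x) ^ 2)) z).symm
  rw [h0]
  unfold Qv
  rw [← ENNReal.tsum_mul_left, ← ENNReal.tsum_mul_left, ← ENNReal.tsum_mul_left,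
    ← ENNReal.tsum_add]
  apply ENNReal.tsum_le_tsum
  intro x
  have hm : (m : ENNReal) = ENNReal.ofReal (m : ℝ) := by
    rw [ENNReal.ofReal_natCast]
  have hm1 : ENNReal.ofReal (m : ℝ) + 1 = ENNReal.ofReal ((m : ℝ) + 1) := by
    rw [ENNReal.ofReal_add (by positivity) (by norm_num), ENNReal.ofReal_one]
  rw [hm, hm1, ← ENNReal.ofReal_mul (by positivity), ← ENNReal.ofReal_mul (by positivity),
    ← ENNReal.ofReal_mul (by positivity), ← ENNReal.ofReal_mul (by positivity),
    ← ENNReal.ofReal_add (by positivity) (by positivity)]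
  apply ENNReal.ofReal_le_ofReal
  have e : w (x + (z + s)) - w x = (w (x + z) - w x) + (w (x + z + s) - w (x + z)) := by
    rw [← add_assoc]
    ring
  rw [e]
  generalize w (x + z) - w x = a
  generalize w (x + z + s) - w (x + z) = b
  have : ((m : ℝ) + 1) * a ^ 2 + (m : ℝ) * ((m : ℝ) + 1) * b ^ 2 - (m : ℝ) * (a + b) ^ 2 =
      (a - (m : ℝ) * b) ^ 2 := by ring
  nlinarith [sq_nonneg (a - (m : ℝ) * b)]

theorem Qv_bound {d : ℕ} (w : Zd d → ℝ) : ∀ (m : ℕ) (z : Zd d), ∑ i, (z i).natAbs = m →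
    Qv w z ≤ (m : ENNReal) ^ 2 * En w := by
  intro m
  induction m with
  | zero =>
    intro z hz
    have h0 : z = 0 := by
      funext i
      have := Finset.sum_eq_zero_iff.1 hz i (Finset.mem_univ i)
      exact Int.natAbs_eq_zero.1 this
    rw [h0, Qv_zero]
    exact zero_le
  | succ m ih =>
    intro z hz
    have hex : ∃ i, z i ≠ 0 := by
      by_contra hcon
      push Not at hcon
      have : ∑ i, (z i).natAbs = 0 := Finset.sum_eq_zero (fun i _ => by rw [hcon i]; rfl)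
      omega
    obtain ⟨i, hi⟩ := hex
    -- the last step
    obtain ⟨s, hs, hQs, hn⟩ : ∃ s : Zd d, (∀ j, j ≠ i → s j = 0) ∧ Qv w s ≤ En w ∧
        (z i - s i).natAbs + 1 = (z i).natAbs := by
      rcases lt_or_gt_of_ne hi with hneg | hpos
      · refine ⟨-Pi.single i (1 : ℤ), ?_, ?_, ?_⟩
        · intro j hj
          simp [hj]
        · rw [Qv_neg]
          exact Qv_single w i
        · have : (-Pi.single i (1 : ℤ) : Zd d) i = -1 := by simp
          rw [this]
          omega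
      · refine ⟨Pi.single i (1 : ℤ), ?_, Qv_single w i, ?_⟩
        · intro j hj
          simp [hj]
        · have : (Pi.single i (1 : ℤ) : Zd d) i = 1 := by simp
          rw [this]
          omega
    have hz' : ∑ j, ((z - s) j).natAbs = m := by
      have e1 := Finset.add_sum_erase Finset.univ (fun j => (z j).natAbs) (Finset.mem_univ i)
      have e2 := Finset.add_sum_erase Finset.univ (fun j => ((z - s) j).natAbs)
        (Finset.mem_univ i)
      have e3 : ∑ j ∈ Finset.univ.erase i, ((z - s) j).natAbs =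
          ∑ j ∈ Finset.univ.erase i, (z j).natAbs := by
        apply Finset.sum_congr rfl
        intro j hj
        rw [Pi.sub_apply, hs j (Finset.ne_of_mem_erase hj), sub_zero]
      have e4 : ((z - s) i).natAbs + 1 = (z i).natAbs := hn
      omega
    have hzz : z = (z - s) + s := by abel
    have ihz := ih (z - s) hz'
    rcases Nat.eq_zero_or_pos m with hm0 | hmpos
    · subst hm0
      have h0 : z - s = 0 := by
        funext j
        have := Finset.sum_eq_zero_iff.1 hz' j (Finset.mem_univ j)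
        exact Int.natAbs_eq_zero.1 this
      have : z = s := sub_eq_zero.1 h0
      rw [this]
      simpa using hQs
    · have hadd := Qv_add w (z - s) s m
      rw [← hzz] at hadd
      have h1 : (m : ENNReal) * Qv w z ≤ (m : ENNReal) * ((((m + 1 : ℕ) : ENNReal)) ^ 2 * En w) := by
        calc (m : ENNReal) * Qv w z
            ≤ ((m : ENNReal) + 1) * Qv w (z - s) +
                (m : ENNReal) * ((m : ENNReal) + 1) * Qv w s := hadd
          _ ≤ ((m : ENNReal) + 1) * ((m : ENNReal) ^ 2 * En w) +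
                (m : ENNReal) * ((m : ENNReal) + 1) * En w := by
              gcongr
          _ = (m : ENNReal) * ((((m + 1 : ℕ) : ENNReal)) ^ 2 * En w) := by
              push_cast
              ring
      have hm0 : (m : ENNReal) ≠ 0 := by
        simp only [ne_eq, Nat.cast_eq_zero]
        omega
      have hmt : (m : ENNReal) ≠ ⊤ := ENNReal.natCast_ne_top m
      exact (ENNReal.mul_le_mul_iff_right hm0 hmt).1 h1

theorem partD {d : ℕ} (w : Zd d → ℝ) (z : Zd d) :
    ∑' x : Zd d, ENNReal.ofReal ((w (x + z) - w x) ^ 2) ≤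
    ENNReal.ofReal ((∑ i, |(z i : ℝ)|) ^ 2) * En w := by
  have h := Qv_bound w (∑ i, (z i).natAbs) z rfl
  have e : ENNReal.ofReal ((∑ i, |(z i : ℝ)|) ^ 2) =
      (((∑ i, (z i).natAbs : ℕ)) : ENNReal) ^ 2 := by
    rw [ENNReal.ofReal_pow (Finset.sum_nonneg (fun i _ => abs_nonneg _))]
    apply congrArg (fun t : ENNReal => t ^ 2)
    rw [← ENNReal.ofReal_natCast]
    apply congrArg
    push_cast
    apply Finset.sum_congr rfl
    intro i _
    rw [Nat.cast_natAbs, Int.cast_abs]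
  rw [e]
  exact h

end R4M

theorem hR4 : SR4 := by
  intro d
  exact ⟨fun w₁ w₂ => R4M.partA w₁ w₂, fun w => R4M.partB w,
    fun f v a hf ha hv => R4M.partC f v a hf ha hv, fun w z => R4M.partD w z⟩

end Pool.RG
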