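import Pool.Agent.Helper69.RG.St
import Pool.Agent.Helper22.NL.StZ
import Pool.Agent.Helper84.LE.BGR

set_option autoImplicit false

open scoped BigOperators ENNReal
open Pool.LE Pool.NL

namespace Pool.RG

namespace R5M

/-- sum over the directed edges as a double sum -/
theorem sum_drt {V : Type} [DecidableEq V] (L : Finset V) (E : Finset (Sym2 V))
    (hE : ∀ u b, s(u, b) ∈ E → u ∈ L ∧ b ∈ L) (f : V → V → ℝ) :
    ∑ ub ∈ drt E, f ub.1 ub.2 = ∑ u ∈ L, ∑ b ∈ L, (if s(u, b) ∈ E then f u b else 0) := by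
  rw [← Finset.sum_product' L L (fun u b => if s(u, b) ∈ E then f u b else 0),
    ← Finset.sum_filter]
  apply Finset.sum_congr
  · ext q
    rw [mem_drt', Finset.mem_filter, Finset.mem_product]
    constructor
    · intro h
      exact ⟨hE _ _ h, h⟩
    · intro h
      exact h.2
  · intro q _
    rfl

/-- linear algebra of the inverse -/
theorem inverse {ι : Type} [Fintype ι] [DecidableEq ι] (g G J : Matrix ι ι ℝ) (p : ℝ)
    (hg : ∀ x, ∑ y, |g x y - (if y = x then 1 else 0)| ≤ 1 / 4)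
    (hG : G = g + p • (g * J * G)) (hsym : G.transpose = G) :
    (g⁻¹ - p • J) * G = 1 ∧ G * (g⁻¹ - p • J) = 1 ∧
    (g⁻¹ - p • J).transpose = g⁻¹ - p • J ∧ g * g⁻¹ = 1 ∧
    ∀ (u : ι → ℝ) (a : ℝ), (∀ x, |u x| ≤ a) → ∀ x, |(g⁻¹).mulVec u x| ≤ 2 * a := by
  have hdet : g.det ≠ 0 := by
    apply det_ne_zero_of_sum_row_lt_diag
    intro k
    have h1 := Finset.add_sum_erase Finset.univ (fun y => |g k y - (if y = k then 1 else 0)|)
      (Finset.mem_univ k)
    have h2 : ∑ y ∈ Finset.univ.erase k, |g k y - (if y = k then 1 else 0)| =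
        ∑ y ∈ Finset.univ.erase k, ‖g k y‖ := by
      apply Finset.sum_congr rfl
      intro y hy
      rw [if_neg (Finset.ne_of_mem_erase hy), sub_zero, Real.norm_eq_abs]
    have h3 := hg k
    rw [← h1, h2, if_pos rfl] at h3
    have h4 : 0 ≤ |g k k - 1| := abs_nonneg _
    have h5 : (1 : ℝ) ≤ |g k k| + |g k k - 1| := by
      have h6 : (1 : ℝ) = g k k - (g k k - 1) := by ring
      calc (1 : ℝ) = |(1 : ℝ)| := (abs_one).symm
        _ = |g k k - (g k k - 1)| := by rw [← h6]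
        _ ≤ |g k k| + |g k k - 1| := abs_sub _ _
    have h7 : 0 ≤ ∑ y ∈ Finset.univ.erase k, ‖g k y‖ :=
      Finset.sum_nonneg (fun _ _ => norm_nonneg _)
    rw [Real.norm_eq_abs]
    linarith
  have hunit : IsUnit g.det := isUnit_iff_ne_zero.2 hdet
  have hgi : g⁻¹ * g = 1 := Matrix.nonsing_inv_mul g hunit
  have hgi' : g * g⁻¹ = 1 := Matrix.mul_nonsing_inv g hunit
  have hHG : (g⁻¹ - p • J) * G = 1 := by
    have e1 : g⁻¹ * G = 1 + p • (J * G) := by
      have e2 : g⁻¹ * G = g⁻¹ * (g + p • (g * J * G)) := by rw [← hG]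
      rw [e2, Matrix.mul_add, hgi, Matrix.mul_smul, ← Matrix.mul_assoc, ← Matrix.mul_assoc, hgi,
        Matrix.one_mul]
    rw [Matrix.sub_mul, e1, Matrix.smul_mul]
    abel
  have hGH : G * (g⁻¹ - p • J) = 1 := mul_eq_one_comm.1 hHG
  refine ⟨hHG, hGH, ?_, hgi', ?_⟩
  · have e1 : G * (g⁻¹ - p • J).transpose = 1 := by
      have e2 := congrArg Matrix.transpose hHG
      rw [Matrix.transpose_mul, hsym, Matrix.transpose_one] at e2
      exact e2
    calc (g⁻¹ - p • J).transpose = ((g⁻¹ - p • J) * G) * (g⁻¹ - p • J).transpose := by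
          rw [hHG, Matrix.one_mul]
      _ = (g⁻¹ - p • J) * (G * (g⁻¹ - p • J).transpose) := Matrix.mul_assoc _ _ _
      _ = g⁻¹ - p • J := by rw [e1, Matrix.mul_one]
  · intro u a hu x₀
    obtain ⟨m, -, hm⟩ := Finset.exists_max_image Finset.univ
      (fun x => |(g⁻¹).mulVec u x|) ⟨x₀, Finset.mem_univ x₀⟩
    have hrec : ∀ x, (g⁻¹).mulVec u x = u x -
        ∑ y, (g x y - (if y = x then 1 else 0)) * (g⁻¹).mulVec u y := by
      intro x
      have e1 : g.mulVec ((g⁻¹).mulVec u) x = u x := by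
        rw [Matrix.mulVec_mulVec, hgi', Matrix.one_mulVec]
      have e2 : g.mulVec ((g⁻¹).mulVec u) x = ∑ y, g x y * (g⁻¹).mulVec u y := rfl
      have e3 : ∑ y, (g x y - (if y = x then 1 else 0)) * (g⁻¹).mulVec u y =
          ∑ y, g x y * (g⁻¹).mulVec u y - (g⁻¹).mulVec u x := by
        have e4 : ∀ y, (g x y - (if y = x then 1 else 0)) * (g⁻¹).mulVec u y =
            g x y * (g⁻¹).mulVec u y - (if y = x then (g⁻¹).mulVec u y else 0) := by
          intro y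
          split_ifs <;> ring
        rw [Finset.sum_congr rfl (fun y _ => e4 y), Finset.sum_sub_distrib,
          Finset.sum_ite_eq' Finset.univ x (fun y => (g⁻¹).mulVec u y),
          if_pos (Finset.mem_univ x)]
      rw [e3, ← e2, e1]
      ring
    have hM : |(g⁻¹).mulVec u m| ≤ a + 1 / 4 * |(g⁻¹).mulVec u m| := by
      calc |(g⁻¹).mulVec u m| = |u m -
            ∑ y, (g m y - (if y = m then 1 else 0)) * (g⁻¹).mulVec u y| := by
            rw [← hrec m]
        _ ≤ |u m| + |∑ y, (g m y - (if y = m then 1 else 0)) * (g⁻¹).mulVec u y| := abs_sub _ _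
        _ ≤ a + ∑ y, |(g m y - (if y = m then 1 else 0)) * (g⁻¹).mulVec u y| :=
            add_le_add (hu m) (Finset.abs_sum_le_sum_abs _ _)
        _ ≤ a + ∑ y, |g m y - (if y = m then 1 else 0)| * |(g⁻¹).mulVec u m| := by
            gcongr with y
            rw [abs_mul]
            exact mul_le_mul_of_nonneg_left (hm y (Finset.mem_univ y)) (abs_nonneg _)
        _ = a + (∑ y, |g m y - (if y = m then 1 else 0)|) * |(g⁻¹).mulVec u m| := by
            rw [Finset.sum_mul]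
        _ ≤ a + 1 / 4 * |(g⁻¹).mulVec u m| := by
            have h8 := mul_le_mul_of_nonneg_right (hg m) (abs_nonneg ((g⁻¹).mulVec u m))
            linarith
    have h9 := hm x₀ (Finset.mem_univ x₀)
    have h10 : 0 ≤ a := le_trans (abs_nonneg _) (hu m)
    have h11 : 0 ≤ |(g⁻¹).mulVec u m| := abs_nonneg _
    linarith

end R5M

theorem hR5core (hFin : StFin) (hHh : StHh) (hBn : StBn) (hBox : StBox) (d : ℕ)
    (hp0 : 0 < pH d) (hp1 : pH d ≤ 1)
    (hG3 : ∀ E : Finset (Sym2 (Zd d)), (E : Set (Sym2 (Zd d))) ⊆ latE d → G3 E (pH d)) :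
    ∀ n : ℕ, 1 ≤ n →
  (∀ x y : Zd d, x ∈ Bn d n → y ∉ Bn d n → gT (ES (Bn d n)) (pH d) x y = 0) ∧
  ∃ H : Zd d → Zd d → ℝ,
    (∀ u ∈ Bn d n, ∀ v ∈ Bn d n,
      ∑ z ∈ Bn d n, cp (ES (Bn d n)) (pH d) u z * H z v = if u = v then 1 else 0) ∧
    (∀ u ∈ Bn d n, ∀ v ∈ Bn d n,
      ∑ z ∈ Bn d n, H u z * cp (ES (Bn d n)) (pH d) z v = if u = v then 1 else 0) ∧
    (∀ u ∈ Bn d n, ∀ v ∈ Bn d n, H u v = H v u) ∧
    ∀ (u : Zd d → ℝ) (a : ℝ), (∀ x ∈ Bn d n, |u x| ≤ a) → ∃ v : Zd d → ℝ,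
      (∀ x, x ∉ Bn d n → v x = 0) ∧ (∀ x, |v x| ≤ 2 * a) ∧
      (∀ x ∈ Bn d n, u x = ∑ y ∈ Bn d n, gT (ES (Bn d n)) (pH d) x y * v y) ∧
      (∀ x ∈ Bn d n, ∑ y ∈ Bn d n, H x y * u y = v x - pH d * ∑ y ∈ nb x, ext (Bn d n) u y) := by
  classical
  intro n hn
  obtain ⟨hFG, -, hlat, hmemB, -⟩ := hBn d n
  have hG3E := hG3 (ES (Bn d n)) hlat
  have hES := (hBox d).2.2.2.2.2.2.2.1 (Bn d n)
  have hFinE := hFin d (ES (Bn d n)) (pH d) hp0.le hp1 hlat hG3E
  obtain ⟨-, hcpsym, -, hcp0, -⟩ := hHh (Zd d) (Bn d n) (ES (Bn d n)) (2 * d) (pH d) hFG hp0.le hp1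
  have hfirst : ∀ x y : Zd d, x ∈ Bn d n → y ∉ Bn d n →
      gT (ES (Bn d n)) (pH d) x y = 0 := by
    intro x y hx hy
    have h1 := (hFinE x y).2.2.2
    have h2 : ∑ ub ∈ drt (ES (Bn d n)), gT (ES (Bn d n)) (pH d) x ub.1 * pH d *
        cp (ES (Bn d n)) (pH d) ub.2 y = 0 := by
      apply Finset.sum_eq_zero
      intro ub hub
      rw [mem_drt'] at hub
      rw [hcp0 ub.2 y ((hES _ _).1 hub).2.1 hy, mul_zero]
    rw [h2, hcp0 x y hx hy, add_zero] at h1
    exact h1.symm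
  refine ⟨hfirst, ?_⟩
  -- the matrices
  let g : Matrix (↥(Bn d n)) (↥(Bn d n)) ℝ :=
    Matrix.of (fun x y => gT (ES (Bn d n)) (pH d) (x : Zd d) (y : Zd d))
  let G : Matrix (↥(Bn d n)) (↥(Bn d n)) ℝ :=
    Matrix.of (fun x y => cp (ES (Bn d n)) (pH d) (x : Zd d) (y : Zd d))
  let J : Matrix (↥(Bn d n)) (↥(Bn d n)) ℝ :=
    Matrix.of (fun x y => if s((x : Zd d), (y : Zd d)) ∈ ES (Bn d n) then 1 else 0)
  have hgrow : ∀ x, ∑ y, |g x y - (if y = x then 1 else 0)| ≤ 1 / 4 := by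
    intro x
    obtain ⟨-, hsummable, hle, -⟩ := hFinE (x : Zd d) (x : Zd d)
    have h1 : Summable (fun y : Zd d => |gT (ES (Bn d n)) (pH d) (x : Zd d) y -
        ind (y = (x : Zd d))|) := by
      have h2 := hsummable (x : Zd d)
      apply Summable.of_nonneg_of_le (fun y => abs_nonneg _)
        (fun y => abs_sub (gT (ES (Bn d n)) (pH d) (x : Zd d) y) (ind (y = (x : Zd d))))
      apply h2.add
      apply summable_of_ne_finset_zero (s := {(x : Zd d)})
      intro y hy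
      rw [Finset.mem_singleton] at hy
      unfold ind
      rw [if_neg hy, abs_zero]
    have h3 : ∑ y ∈ Bn d n, |gT (ES (Bn d n)) (pH d) (x : Zd d) y - ind (y = (x : Zd d))| ≤
        1 / 4 :=
      le_trans (h1.sum_le_tsum (Bn d n) (fun _ _ => abs_nonneg _)) (hle (x : Zd d))
    rw [← Finset.sum_coe_sort] at h3
    refine le_trans (le_of_eq ?_) h3
    apply Finset.sum_congr rfl
    intro y _
    have h4 : (ind ((y : Zd d) = (x : Zd d)) : ℝ) = if y = x then 1 else 0 := by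
      unfold ind
      by_cases h : y = x
      · rw [if_pos h, if_pos (by rw [h])]
      · rw [if_neg h, if_neg (fun h' => h (Subtype.ext h'))]
    rw [h4]
    rfl
  have hEin : ∀ u b, s(u, b) ∈ ES (Bn d n) → u ∈ Bn d n ∧ b ∈ Bn d n := by
    intro u b h
    have := (hES u b).1 h
    exact ⟨this.1, this.2.1⟩
  have hGeq : G = g + pH d • (g * J * G) := by
    ext x y
    have h1 := (hFinE (x : Zd d) (y : Zd d)).2.2.2
    rw [R5M.sum_drt (Bn d n) (ES (Bn d n)) hEin (fun u b =>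
      gT (ES (Bn d n)) (pH d) (x : Zd d) u * pH d * cp (ES (Bn d n)) (pH d) b (y : Zd d))] at h1
    rw [← Finset.sum_coe_sort] at h1
    have h2 : ∀ u : ↥(Bn d n), ∑ b ∈ Bn d n, (if s((u : Zd d), b) ∈ ES (Bn d n) then
        gT (ES (Bn d n)) (pH d) (x : Zd d) (u : Zd d) * pH d *
          cp (ES (Bn d n)) (pH d) b (y : Zd d) else 0) =
        pH d * ∑ b : ↥(Bn d n), g x u * J u b * G b y := by
      intro u
      rw [← Finset.sum_coe_sort, Finset.mul_sum]
      apply Finset.sum_congr rfl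
      intro b _
      change _ = pH d * (gT (ES (Bn d n)) (pH d) (x : Zd d) (u : Zd d) *
        (if s((u : Zd d), (b : Zd d)) ∈ ES (Bn d n) then 1 else 0) *
        cp (ES (Bn d n)) (pH d) (b : Zd d) (y : Zd d))
      split_ifs <;> ring
    rw [Finset.sum_congr rfl (fun u _ => h2 u), ← Finset.mul_sum] at h1
    change cp (ES (Bn d n)) (pH d) (x : Zd d) (y : Zd d) =
      gT (ES (Bn d n)) (pH d) (x : Zd d) (y : Zd d) + pH d * (g * J * G) x y
    rw [h1, Matrix.mul_apply]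
    apply congrArg
    apply congrArg
    rw [Finset.sum_comm]
    apply Finset.sum_congr rfl
    intro b _
    rw [Matrix.mul_apply, Finset.sum_mul]
  have hsym : G.transpose = G := by
    ext x y
    exact (hcpsym (y : Zd d) (x : Zd d)).1
  obtain ⟨hHG, hGH, hHt, hgg, hbound⟩ := R5M.inverse g G J (pH d) hgrow hGeq hsym
  let H : Zd d → Zd d → ℝ := fun x y => if h : x ∈ Bn d n ∧ y ∈ Bn d n then
    (g⁻¹ - pH d • J) ⟨x, h.1⟩ ⟨y, h.2⟩ else 0
  have hHdef : ∀ x y : ↥(Bn d n), H (x : Zd d) (y : Zd d) = (g⁻¹ - pH d • J) x y := by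
    intro x y
    change (if h : (x : Zd d) ∈ Bn d n ∧ (y : Zd d) ∈ Bn d n then
      (g⁻¹ - pH d • J) ⟨x, h.1⟩ ⟨y, h.2⟩ else 0) = _
    rw [dif_pos ⟨x.2, y.2⟩]
  have hone : ∀ x y : ↥(Bn d n), (1 : Matrix (↥(Bn d n)) (↥(Bn d n)) ℝ) x y =
      if (x : Zd d) = (y : Zd d) then 1 else 0 := by
    intro x y
    rw [Matrix.one_apply]
    by_cases h : x = y
    · rw [if_pos h, if_pos (by rw [h])]
    · rw [if_neg h, if_neg (fun h' => h (Subtype.ext h'))]
  refine ⟨H, ?_, ?_, ?_, ?_⟩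
  · intro u hu v hv
    have h1 := congrFun (congrFun hGH ⟨u, hu⟩) ⟨v, hv⟩
    rw [Matrix.mul_apply, hone] at h1
    rw [← h1, ← Finset.sum_coe_sort]
    apply Finset.sum_congr rfl
    intro z _
    rw [hHdef z ⟨v, hv⟩]
    rfl
  · intro u hu v hv
    have h1 := congrFun (congrFun hHG ⟨u, hu⟩) ⟨v, hv⟩
    rw [Matrix.mul_apply, hone] at h1
    rw [← h1, ← Finset.sum_coe_sort]
    apply Finset.sum_congr rfl
    intro z _
    rw [hHdef ⟨u, hu⟩ z]
    rfl
  · intro u hu v hv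
    rw [hHdef ⟨u, hu⟩ ⟨v, hv⟩, hHdef ⟨v, hv⟩ ⟨u, hu⟩]
    exact congrFun (congrFun hHt ⟨v, hv⟩) ⟨u, hu⟩
  · intro u a hu
    have h0 : (0 : Zd d) ∈ Bn d n := by
      rw [hmemB]
      intro i
      constructor
      · exact le_refl _
      · have : (0 : ℤ) < (n : ℤ) := by omega
        exact this
    have ha : 0 ≤ a := le_trans (abs_nonneg _) (hu 0 h0)
    let u' : ↥(Bn d n) → ℝ := fun x => u (x : Zd d)
    obtain ⟨v, hv1, hv2⟩ : ∃ v : Zd d → ℝ, (∀ y : ↥(Bn d n), v (y : Zd d) = (g⁻¹).mulVec u' y) ∧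
        ∀ x, x ∉ Bn d n → v x = 0 := by
      refine ⟨fun x => if h : x ∈ Bn d n then (g⁻¹).mulVec u' ⟨x, h⟩ else 0, ?_, ?_⟩
      · intro y
        exact dif_pos y.2
      · intro x hx
        exact dif_neg hx
    refine ⟨v, hv2, ?_, ?_, ?_⟩
    · intro x
      by_cases hx : x ∈ Bn d n
      · have h1 := hv1 ⟨x, hx⟩
        change v x = _ at h1
        rw [h1]
        exact hbound u' a (fun y => hu y y.2) ⟨x, hx⟩
      · rw [hv2 x hx, abs_zero]
        linarith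
    · intro x hx
      have h1 : g.mulVec ((g⁻¹).mulVec u') ⟨x, hx⟩ = u' ⟨x, hx⟩ := by
        rw [Matrix.mulVec_mulVec, hgg, Matrix.one_mulVec]
      have h2 : g.mulVec ((g⁻¹).mulVec u') ⟨x, hx⟩ =
          ∑ y : ↥(Bn d n), gT (ES (Bn d n)) (pH d) x (y : Zd d) * (g⁻¹).mulVec u' y := rfl
      have h3 : ∑ y ∈ Bn d n, gT (ES (Bn d n)) (pH d) x y * v y =
          ∑ y : ↥(Bn d n), gT (ES (Bn d n)) (pH d) x (y : Zd d) * v (y : Zd d) :=
        (Finset.sum_coe_sort (Bn d n) (fun y => gT (ES (Bn d n)) (pH d) x y * v y)).symm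
      change u' ⟨x, hx⟩ = _
      rw [← h1, h2, h3]
      apply Finset.sum_congr rfl
      intro y _
      rw [hv1 y]
    · intro x hx
      have h0' : v x = (g⁻¹).mulVec u' ⟨x, hx⟩ := hv1 ⟨x, hx⟩
      rw [h0', ← Finset.sum_coe_sort (Bn d n) (fun y => H x y * u y)]
      have h1 : ∑ y : ↥(Bn d n), H x (y : Zd d) * u (y : Zd d) =
          ∑ y : ↥(Bn d n), (g⁻¹) ⟨x, hx⟩ y * u' y -
            pH d * ∑ y : ↥(Bn d n), J ⟨x, hx⟩ y * u' y := by
        rw [Finset.mul_sum, ← Finset.sum_sub_distrib]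
        apply Finset.sum_congr rfl
        intro y _
        rw [hHdef ⟨x, hx⟩ y]
        change ((g⁻¹) ⟨x, hx⟩ y - pH d * J ⟨x, hx⟩ y) * u' y = _
        ring
      rw [h1]
      have h2 : (g⁻¹).mulVec u' ⟨x, hx⟩ = ∑ y : ↥(Bn d n), (g⁻¹) ⟨x, hx⟩ y * u' y := rfl
      rw [h2]
      apply congrArg
      apply congrArg
      have h3 : ∑ y : ↥(Bn d n), J ⟨x, hx⟩ y * u' y =
          ∑ y ∈ Bn d n, (if s(x, y) ∈ ES (Bn d n) then u y else 0) := by
        rw [← Finset.sum_coe_sort (Bn d n) (fun y => if s(x, y) ∈ ES (Bn d n) then u y else 0)]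
        apply Finset.sum_congr rfl
        intro y _
        change (if s(x, (y : Zd d)) ∈ ES (Bn d n) then (1 : ℝ) else 0) * u (y : Zd d) = _
        split_ifs <;> ring
      rw [h3, ← Finset.sum_filter]
      unfold ext
      rw [← Finset.sum_filter]
      apply Finset.sum_congr
      · ext y
        rw [Finset.mem_filter, Finset.mem_filter, hES]
        constructor
        · rintro ⟨_, _, h5, h6⟩
          exact ⟨h6, h5⟩
        · rintro ⟨h5, h6⟩
          exact ⟨h6, hx, h6, h5⟩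
      · intro y _
        rfl

theorem hR5 (hS6d : StS6d) (hG3 : StG3) (hFin : StFin) (hHh : StHh) (hBn : StBn)
    (hBox : StBox) : SR5 := by
  obtain ⟨d₁, hd₁⟩ := hG3
  refine ⟨max d₁ 1, le_max_right _ _, ?_⟩
  intro d hd
  obtain ⟨hp0, hp2⟩ := hS6d d (lt_of_lt_of_le one_pos (le_trans (le_max_right _ _) hd))
  exact hR5core hFin hHh hBn hBox d hp0 (by linarith)
    (hd₁ d (le_trans (le_max_left _ _) hd)).2

end Pool.RG
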