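import Pool.Agent.Helper2.RG.M_R5
import Pool.Agent.Helper69.RG.Bridge

set_option autoImplicit false

open scoped BigOperators ENNReal
open Pool.LE Pool.NL

namespace Pool.RG

theorem hR5at (hFin : StFin) (hHh : StHh) (hBn : StBn) (hBox : StBox) :
    ∀ (d : ℕ) (C₁ B c₀ CL : ℝ), Pool.CL.EnvC d C₁ B c₀ CL → SR5at d := by
  intro d C₁ B c₀ CL hE
  have h := hE.half
  exact hR5core hFin hHh hBn hBox d hE.env.p0 (by linarith) hE.g3

end Pool.RG
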