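import Pool.Agent.Helper20.RG.St1

set_option autoImplicit false

namespace Pool.Agent.Helper2.RG

open Pool.Agent.Helper20.RG

/-- finite layer cake -/
theorem layer (x : ℝ) (hx : x ≤ 1) (I : ℕ) :
    x ≤ (1 / 2) ^ I + ∑ i ∈ Finset.range I, (1 / 2 : ℝ) ^ (i + 1) * (if (1 / 2 : ℝ) ^ (i + 1) ≤ x then 1 else 0) := by
  induction I with
  | zero => simpa using hx
  | succ I ih =>
    rw [Finset.sum_range_succ]
    split_ifs with h
    · have e : (1 / 2 : ℝ) ^ (I + 1) + (1 / 2 : ℝ) ^ (I + 1) = (1 / 2) ^ I := by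
        rw [pow_succ]
        ring
      linarith
    · have h0 : 0 ≤ ∑ i ∈ Finset.range I, (1 / 2 : ℝ) ^ (i + 1) *
          (if (1 / 2 : ℝ) ^ (i + 1) ≤ x then 1 else 0) := by
        apply Finset.sum_nonneg
        intro i _
        split_ifs <;> positivity
      push Not at h
      linarith

theorem hSUF : StSUF := by
  intro N f C B hC hB hf hcount
  set S := ∑ j ∈ Finset.range N, f j with hS
  have hcard : ∀ y : ℝ, ({j : ℕ | j < N ∧ y ≤ f j}.ncard : ℝ) =
      ∑ j ∈ Finset.range N, (if y ≤ f j then (1:ℝ) else 0) := by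
    intro y
    have h1 : {j : ℕ | j < N ∧ y ≤ f j} = ((Finset.range N).filter (fun j => y ≤ f j) : Finset ℕ) := by
      ext j
      simp
    rw [h1, Set.ncard_coe_finset, Finset.card_filter]
    push_cast
    rfl
  have hx0 : 0 ≤ C * B := mul_nonneg hC hB
  have key : ∀ I : ℕ, S ≤ N * (1 / 2) ^ I + C + 2 * (C * B) * 2 ^ I := by
    intro I
    have h1 : S ≤ ∑ j ∈ Finset.range N, ((1 / 2) ^ I + ∑ i ∈ Finset.range I,
        (1 / 2 : ℝ) ^ (i + 1) * (if (1 / 2 : ℝ) ^ (i + 1) ≤ f j then 1 else 0)) :=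
      Finset.sum_le_sum (fun j hj => layer (f j) (hf j (Finset.mem_range.1 hj)).2 I)
    rw [Finset.sum_add_distrib, Finset.sum_const, Finset.card_range, nsmul_eq_mul,
      Finset.sum_comm] at h1
    have h2 : ∑ i ∈ Finset.range I, ∑ j ∈ Finset.range N,
        (1 / 2 : ℝ) ^ (i + 1) * (if (1 / 2 : ℝ) ^ (i + 1) ≤ f j then 1 else 0) ≤
        ∑ i ∈ Finset.range I, (C * (1 / 2 : ℝ) ^ (i + 1) + (C * B) * 2 ^ (i + 1)) := by
      apply Finset.sum_le_sum
      intro i _
      rw [← Finset.mul_sum, ← hcard]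
      have h3 := hcount ((1 / 2) ^ (i + 1)) (by positivity)
        (pow_le_one₀ (by norm_num) (by norm_num))
      have h4 : (1 / 2 : ℝ) ^ (i + 1) * (C * (1 + B / ((1 / 2) ^ (i + 1)) ^ 2)) =
          C * (1 / 2 : ℝ) ^ (i + 1) + (C * B) * 2 ^ (i + 1) := by
        have h5 : (2:ℝ) ^ (i + 1) = ((1 / 2) ^ (i + 1))⁻¹ := by
          rw [one_div, inv_pow, inv_inv]
        rw [h5]
        have h6 : ((1 / 2 : ℝ) ^ (i + 1)) ≠ 0 := by positivity
        field_simp
      rw [← h4]
      exact mul_le_mul_of_nonneg_left h3 (by positivity)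
    have h3 : ∑ i ∈ Finset.range I, (C * (1 / 2 : ℝ) ^ (i + 1) + (C * B) * 2 ^ (i + 1)) ≤
        C + 2 * (C * B) * 2 ^ I := by
      have h4 : ∀ J : ℕ, ∑ i ∈ Finset.range J, (C * (1 / 2 : ℝ) ^ (i + 1) + (C * B) * 2 ^ (i + 1)) ≤
          C * (1 - (1 / 2) ^ J) + 2 * (C * B) * (2 ^ J - 1) := by
        intro J
        induction J with
        | zero => simp
        | succ J ih =>
          rw [Finset.sum_range_succ]
          have e1 : (1 / 2 : ℝ) ^ (J + 1) = (1 / 2) ^ J / 2 := by
            rw [pow_succ]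
            ring
          have e2 : (2 : ℝ) ^ (J + 1) = 2 ^ J * 2 := pow_succ _ _
          rw [e1, e2]
          linarith
      have h5 := h4 I
      have h6 : 0 ≤ C * (1 / 2 : ℝ) ^ I := by positivity
      linarith
    linarith
  have hsq : 0 ≤ Real.sqrt (C * B * N) := Real.sqrt_nonneg _
  rcases hx0.eq_or_lt with h0 | h0
  · have h1 : S ≤ C := by
      apply le_of_forall_pos_le_add
      intro ε hε
      obtain ⟨I, hI⟩ := exists_pow_lt_of_lt_one (show 0 < ε / (N + 1) by positivity)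
        (show (1 / 2 : ℝ) < 1 by norm_num)
      have h2 := key I
      rw [← h0] at h2
      have h3 : (N:ℝ) * (1 / 2) ^ I ≤ ε := by
        have h4 : (N:ℝ) * (1 / 2) ^ I ≤ (N + 1) * (ε / (N + 1)) := by
          apply mul_le_mul (by linarith) hI.le (by positivity) (by positivity)
        have h5 : ((N:ℝ) + 1) * (ε / (N + 1)) = ε := by
          have : (N:ℝ) + 1 ≠ 0 := by positivity
          field_simp
        linarith
      linarith
    linarith
  · rcases le_or_gt (N:ℝ) (C * B) with h1 | h1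
    · have h2 : S ≤ N := by
        have : S ≤ ∑ j ∈ Finset.range N, (1:ℝ) :=
          Finset.sum_le_sum (fun j hj => (hf j (Finset.mem_range.1 hj)).2)
        simpa using this
      have hN0 : (0:ℝ) ≤ N := Nat.cast_nonneg N
      have h3 : (N:ℝ) ≤ Real.sqrt (C * B * N) := by
        apply Real.le_sqrt_of_sq_le
        rw [sq]
        exact mul_le_mul_of_nonneg_right h1 hN0
      linarith
    · have hN0 : (0:ℝ) < N := lt_trans h0 h1
      have h2 : 1 ≤ (N:ℝ) / (C * B) := by
        rw [le_div_iff₀ h0]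
        linarith
      obtain ⟨I, hI1, hI2⟩ := exists_nat_pow_near h2 (show (1:ℝ) < 4 by norm_num)
      have h4p : (4:ℝ) ^ I = (2 ^ I) ^ 2 := by
        rw [← pow_mul, mul_comm, pow_mul]
        norm_num
      have hI1' : (C * B) * (2 ^ I) ^ 2 ≤ N := by
        rw [← h4p]
        rw [le_div_iff₀ h0] at hI1
        linarith
      have hI2' : (N:ℝ) < 4 * ((C * B) * (2 ^ I) ^ 2) := by
        rw [← h4p]
        rw [div_lt_iff₀ h0, pow_succ] at hI2
        linarith
      have hp : (0:ℝ) < 2 ^ I := by positivity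
      have ha : (C * B) * 2 ^ I ≤ Real.sqrt (C * B * N) := by
        apply Real.le_sqrt_of_sq_le
        have e : ((C * B) * 2 ^ I) ^ 2 = (C * B) * ((C * B) * (2 ^ I) ^ 2) := by ring
        rw [e]
        exact mul_le_mul_of_nonneg_left hI1' h0.le
      have hb : (N:ℝ) * (1 / 2) ^ I ≤ 2 * Real.sqrt (C * B * N) := by
        have e0 : (1 / 2 : ℝ) ^ I = (2 ^ I)⁻¹ := by
          rw [one_div, inv_pow]
        have h5 : ((N:ℝ) * (1 / 2) ^ I) ^ 2 ≤ (2 * Real.sqrt (C * B * N)) ^ 2 := by
          rw [mul_pow 2, Real.sq_sqrt (by positivity), e0]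
          have h6 : ((N:ℝ) * (2 ^ I)⁻¹) ^ 2 = N * (N / (2 ^ I) ^ 2) := by
            field_simp
          rw [h6]
          have h7 : (N:ℝ) / (2 ^ I) ^ 2 ≤ 4 * (C * B) := by
            rw [div_le_iff₀ (by positivity)]
            linarith
          have h8 := mul_le_mul_of_nonneg_left h7 hN0.le
          linarith
        exact (le_abs_self _).trans (abs_le_of_sq_le_sq h5 (by positivity))
      have := key I
      linarith

end Pool.Agent.Helper2.RG
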