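import Pool.Agent.Helper2.RG.Defs

/-!
# Project RG (MP_76188c_nt), statements of the modules (helper2)
-/

open scoped Pointwise NumberField
open NumberField

namespace Pool.RG

/-! ## Profinite facts about primes of `𝓞 Qb` -/

/-- (i) `Gal(Qb/K)` is transitive on the primes above a given prime of `K`; (ii) it induces all automorphisms of the residue
field which are trivial on the residue field of `K`. -/
def StProf : Prop := ∀ K : IntermediateField ℚ Qb,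
  (∀ P Q : Ideal (𝓞 Qb), P.IsMaximal → Q.IsMaximal → (∀ x : 𝓞 Qb, (x : Qb) ∈ K → (x ∈ P ↔ x ∈ Q)) →
    ∃ g ∈ GF K, g • P = Q) ∧
  (∀ P : Ideal (𝓞 Qb), P.IsMaximal → ∀ τ ∈ Dec P, (∀ x : 𝓞 Qb, (x : Qb) ∈ K → τ • x - x ∈ P) →
    ∃ g ∈ GF K ⊓ Dec P, ∀ x : 𝓞 Qb, g • x - τ • x ∈ P)

/-- Inertia elements of a Galois extension `L/F` lift to inertia elements. -/
def StLift : Prop := ∀ F L : IntermediateField ℚ Qb, F ≤ L → (∀ g ∈ GF F, ∀ n ∈ GF L, g * n * g⁻¹ ∈ GF L) →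
  ∀ P : Ideal (𝓞 Qb), P.IsMaximal → ∀ τ ∈ GF F, (∀ x : 𝓞 Qb, (x : Qb) ∈ L → τ • x - x ∈ P) →
    ∃ σ ∈ GF F ⊓ Ine P, σ⁻¹ * τ ∈ GF L

/-- Conjugation of inertia and decomposition groups, `Out` is invariant, `Ine ≤ Dec`, `Dec` is closed. -/
def StConj : Prop := ∀ P : Ideal (𝓞 Qb),
  (∀ (g x : GQ), x ∈ Ine P → g * x * g⁻¹ ∈ Ine (g • P)) ∧ (∀ (g x : GQ), x ∈ Dec P → g * x * g⁻¹ ∈ Dec (g • P)) ∧
  (∀ (l : ℕ) (S : Finset ℕ) (g : GQ), Out l S P → Out l S (g • P)) ∧ Ine P ≤ Dec P ∧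
  IsClosed (Dec P : Set GQ)

/-- If `F` has exactly one prime above `l` then all primes of `𝓞 Qb` above `l` are conjugate under `Gal(Qb/F)`. -/
def StOne : Prop := ∀ (l : ℕ) (F : IntermediateField ℚ Qb) [NumberField F], l.Prime →
  (∃! p : Ideal (𝓞 F), p.IsMaximal ∧ (l : 𝓞 F) ∈ p) →
  ∀ P Q : Ideal (𝓞 Qb), P.IsMaximal → Q.IsMaximal → (l : 𝓞 Qb) ∈ P → (l : 𝓞 Qb) ∈ Q → ∃ g ∈ GF F, g • P = Q

/-! ## Group theory -/

/-- Frattini: a subgroup `D` of a group `Q` all of whose elements have `l`-power order (finite `Q`), contained in no normal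
subgroup of index `l`, is everything. -/
def StFrat : Prop := ∀ (l : ℕ) [Fact l.Prime] (Q : Type) [Group Q] [Finite Q] (D : Subgroup Q), IsPGroup l Q →
  (∀ N : Subgroup Q, N.Normal → N.index = l → ¬ D ≤ N) → D = ⊤

/-- The group theoretic heart. `U` is an open subgroup of `Gal(Qb/k)`. -/
def StHeart : Prop := ∀ (l : ℕ) [Fact l.Prime] (S : Finset ℕ) (F0 F k : IntermediateField ℚ Qb) (P0 : Ideal (𝓞 Qb)),
  FiniteDimensional ℚ F → F0 ≤ F → F0 ≤ k → Good l S F P0 → DecSurj F0 F P0 → Tower l S F k →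
  ∀ U : Subgroup GQ, U ≤ GF k → IsOpen (U : Set GQ) → (∀ g ∈ GF k, ∀ u ∈ U, g * u * g⁻¹ ∈ U) →
    (∀ g ∈ GF k ⊓ GF F, ∃ r : ℕ, g ^ (l ^ r) ∈ U) → (∀ P, Out l S P → GF k ⊓ Ine P ≤ U) →
    ∀ g ∈ GF k, ∃ d ∈ GF k ⊓ Dec P0, d⁻¹ * g ∈ U

/-- The conclusion of `StHeart` for one `k`. -/
def Heart (l : ℕ) (S : Finset ℕ) (F k : IntermediateField ℚ Qb) (P0 : Ideal (𝓞 Qb)) : Prop :=
  ∀ U : Subgroup GQ, U ≤ GF k → IsOpen (U : Set GQ) → (∀ g ∈ GF k, ∀ u ∈ U, g * u * g⁻¹ ∈ U) →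
    (∀ g ∈ GF k ⊓ GF F, ∃ r : ℕ, g ^ (l ^ r) ∈ U) → (∀ P, Out l S P → GF k ⊓ Ine P ≤ U) →
    ∀ g ∈ GF k, ∃ d ∈ GF k ⊓ Dec P0, d⁻¹ * g ∈ U

/-- `GF k` compact, `Dec` closed: image statement. -/
def StIm : Prop := ∀ (l : ℕ) [Fact l.Prime] (S : Finset ℕ) (F k : IntermediateField ℚ Qb) (P0 : Ideal (𝓞 Qb)),
  FiniteDimensional ℚ k → Heart l S F k P0 → IsClosed (Dec P0 : Set GQ) →
  ∀ (n : ℕ) (ρ : GF k →* GL (Fin n) ℤ_[l]), RepOK l S F k n ρ → ConclIm l k P0 n ρ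

/-- Cohomology statement. -/
def StCoh : Prop := ∀ (l : ℕ) [Fact l.Prime] (S : Finset ℕ) (F k : IntermediateField ℚ Qb) (P0 : Ideal (𝓞 Qb)),
  FiniteDimensional ℚ k → Heart l S F k P0 →
  ∀ (n : ℕ) (ρ : GF k →* GL (Fin n) ℤ_[l]), RepOK l S F k n ρ → ConclH1 l S k P0 n ρ

/-! ## Case B -/

def StGoodB : Prop := ∀ (l : ℕ) (S : Finset ℕ) (F : IntermediateField ℚ Qb) (P0 : Ideal (𝓞 Qb)),
  P0.IsMaximal → (l : 𝓞 Qb) ∈ P0 → CaseB l S F → Good l S F P0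

/-! ## Hilbert's theorem 94 with ramified primes -/

section H

variable (K L : Type) [Field K] [NumberField K] [Field L] [NumberField L] [Algebra K L]

/-- The norm on units. -/
noncomputable def Nm : (𝓞 L)ˣ →* (𝓞 K)ˣ := Units.map (RingOfIntegers.norm K)

/-- The action of `g` on the units of `L`. -/
noncomputable def actU (g : Gal(L/K)) : (𝓞 L)ˣ →* (𝓞 L)ˣ :=
  Units.map (MulSemiringAction.toRingHom Gal(L/K) (𝓞 L) g).toMonoidHom

/-- The homomorphism `u ↦ g u / u` on the units of `L`. -/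
noncomputable def tau (g : Gal(L/K)) : (𝓞 L)ˣ →* (𝓞 L)ˣ := actU K L g / MonoidHom.id _

end H

/-- A statement about abstract finitely generated abelian groups (multiplicative). `E` = fixed points,
`Nn x = ∏_(i<l) σ^i x`. -/
def StAlg : Prop := ∀ (M : Type) [CommGroup M] (l r : ℕ) (σ : M →* M), l.Prime → Group.FG M →
  (∀ x, (σ^[l]) x = x) → Module.finrank ℤ (Additive M) + 1 = l * r →
  ∀ (E : Subgroup M) (Nn D : M →* M), (∀ x, x ∈ E ↔ σ x = x) → (∀ x, Nn x = ∏ i ∈ Finset.range l, (σ^[i]) x) →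
  (∀ x, D x = σ x / x) → Module.finrank ℤ (Additive E) + 1 = r → Nat.card {x : E // x ^ l = 1} ≤ l →
  Nn.range.relIndex E ≠ 0 ∧ D.range.relIndex Nn.ker ≠ 0 ∧
    l * Nn.range.relIndex E ≤ D.range.relIndex Nn.ker

/-- Herbrand quotient inequality for units. -/
def StUnits : Prop := ∀ (K L : Type) [Field K] [NumberField K] [Field L] [NumberField L] [Algebra K L] [IsGalois K L]
  (l : ℕ) (g : Gal(L/K)), l.Prime → Module.finrank K L = l → (∀ x : Gal(L/K), x ∈ Subgroup.zpowers g) →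
  (l ≠ 2 ∨ ∀ w : InfinitePlace K, w.IsComplex) →
  (Nm K L).range.index ≠ 0 ∧ (tau K L g).range.relIndex (Nm K L).ker ≠ 0 ∧
    l * (Nm K L).range.index ≤ (tau K L g).range.relIndex (Nm K L).ker

/-- A prime `q` of `K` is totally ramified in `L`: some prime above it has full inertia group. -/
def Ram (K L : Type) [Field K] [NumberField K] [Field L] [NumberField L] [Algebra K L] (q : Ideal (𝓞 K)) : Prop :=
  ∃ P : Ideal (𝓞 L), P.IsMaximal ∧ P.under (𝓞 K) = q ∧ P.inertia Gal(L/K) = ⊤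

/-- An element whose ideal is Galois invariant, with valuations divisible by `l` at the totally ramified primes, generates
an ideal extended from `K`. -/
def StExt : Prop := ∀ (K L : Type) [Field K] [NumberField K] [Field L] [NumberField L] [Algebra K L] [IsGalois K L]
  (l : ℕ), l.Prime → Module.finrank K L = l → ∀ a : 𝓞 L, a ≠ 0 → (∀ g : Gal(L/K), Associated (g • a) a) →
  (∀ P : Ideal (𝓞 L), P.IsMaximal → P.inertia Gal(L/K) = ⊤ →
    l ∣ (UniqueFactorizationMonoid.normalizedFactors (Ideal.span {a})).count P) →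
  ∃ J : Ideal (𝓞 K), J.map (algebraMap (𝓞 K) (𝓞 L)) = Ideal.span {a}

/-- If moreover the class number of `K` is prime to `l`, the element is a unit times an element of `K`. -/
def StPrin : Prop := ∀ (K L : Type) [Field K] [NumberField K] [Field L] [NumberField L] [Algebra K L] [IsGalois K L]
  (l : ℕ), l.Prime → Module.finrank K L = l → Nat.Coprime (classNumber K) l →
  ∀ a : 𝓞 L, a ≠ 0 → (∀ g : Gal(L/K), Associated (g • a) a) →
  (∀ P : Ideal (𝓞 L), P.IsMaximal → P.inertia Gal(L/K) = ⊤ →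
    l ∣ (UniqueFactorizationMonoid.normalizedFactors (Ideal.span {a})).count P) →
  ∃ (b : 𝓞 K) (η : (𝓞 L)ˣ), a = algebraMap (𝓞 K) (𝓞 L) b * η

/-- Hilbert 90 and ideals: the group (norm one units) / (g - 1) embeds into `(ℤ/l)^t`. -/
def StIdeal : Prop := ∀ (K L : Type) [Field K] [NumberField K] [Field L] [NumberField L] [Algebra K L] [IsGalois K L]
  (l : ℕ) (g : Gal(L/K)), l.Prime → Module.finrank K L = l → (∀ x : Gal(L/K), x ∈ Subgroup.zpowers g) →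
  Nat.Coprime (classNumber K) l → ∀ T : Finset (Ideal (𝓞 K)), (∀ q : Ideal (𝓞 K), q ∈ T ↔ Ram K L q) →
  (tau K L g).range.relIndex (Nm K L).ker ≤ l ^ T.card

/-- Norms of units are `l`-th powers modulo the totally ramified primes. -/
def StRam : Prop := ∀ (K L : Type) [Field K] [NumberField K] [Field L] [NumberField L] [Algebra K L] [IsGalois K L]
  (l : ℕ), l.Prime → Module.finrank K L = l → ∀ q : Ideal (𝓞 K), Ram K L q → ∀ u : (𝓞 L)ˣ,
  ∃ y : (𝓞 K ⧸ q)ˣ, Units.map (Ideal.Quotient.mk q).toMonoidHom (Nm K L u) = y ^ l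

/-- Index of the norms of units. -/
def StIndex : Prop := ∀ (K L : Type) [Field K] [NumberField K] [Field L] [NumberField L] [Algebra K L] [IsGalois K L]
  (l : ℕ), l.Prime → Module.finrank K L = l → ∀ T : Finset (Ideal (𝓞 K)), (∀ q ∈ T, Ram K L q) →
  (∀ q ∈ T, l ∣ Nat.card (𝓞 K ⧸ q) - 1) →
  (∀ x : (q : Ideal (𝓞 K)) → (𝓞 K ⧸ q)ˣ, ∃ u : (𝓞 K)ˣ, ∀ q ∈ T,
    ∃ y : (𝓞 K ⧸ q)ˣ, Units.map (Ideal.Quotient.mk q).toMonoidHom u = x q * y ^ l) →
  (Nm K L).range.index ≠ 0 → l ^ T.card ≤ (Nm K L).range.index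

/-- Hilbert 94 with ramified primes: no cyclic extension of degree `l` whose ramification is in `T`. -/
def StH : Prop := ∀ (K L : Type) [Field K] [NumberField K] [Field L] [NumberField L] [Algebra K L] [IsGalois K L]
  (l : ℕ), l.Prime → Module.finrank K L = l → (l ≠ 2 ∨ ∀ w : InfinitePlace K, w.IsComplex) →
  Nat.Coprime (classNumber K) l → ∀ T : Finset (Ideal (𝓞 K)), (∀ q ∈ T, q.IsMaximal ∧ l ∣ Nat.card (𝓞 K ⧸ q) - 1) →
  (∀ x : (q : Ideal (𝓞 K)) → (𝓞 K ⧸ q)ˣ, ∃ u : (𝓞 K)ˣ, ∀ q ∈ T,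
    ∃ y : (𝓞 K ⧸ q)ˣ, Units.map (Ideal.Quotient.mk q).toMonoidHom u = x q * y ^ l) →
  (∀ P : Ideal (𝓞 L), P.IsMaximal → P.under (𝓞 K) ∉ T → P.inertia Gal(L/K) = ⊥) → False

/-- Case A. -/
def StGoodA : Prop := ∀ (l : ℕ) (S : Finset ℕ) (F : IntermediateField ℚ Qb) [NumberField F] (P0 : Ideal (𝓞 Qb)),
  l.Prime → (∀ p ∈ S, p.Prime) → P0.IsMaximal → (l : 𝓞 Qb) ∈ P0 → CaseA l S F → Good l S F P0

end Pool.RG
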